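import Mathlib

set_option autoImplicit false

/-!
Combinatorial part: hierarchical placements of the vertices of sparse graphs.
-/

namespace Pool.Agent.Lib.MP_d08991_co

variable {V : Type} [DecidableEq V]

/-- The signed label function of a sequence of leaf insertions. -/
def L : List (V × V) → (V → ℝ) → V → V → ℝ
  | [], _, _, _ => 0
  | (v, a) :: l, x, y, z =>
    if z = v then (if y = v then 0 else if y = a then x v else L l x y a)
    else if y = v then (if z = a then - x v else L l x a z)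
    else L l x y z

lemma L_antisymm (l : List (V × V)) (x : V → ℝ) : ∀ y z, L l x y z = - L l x z y := by
  induction l with
  | nil => intro y z; simp [L]
  | cons p l ih =>
    obtain ⟨v, a⟩ := p
    intro y z
    by_cases hz : z = v
    · by_cases hy : y = v
      · simp [L, hz, hy]
      · by_cases ha : y = a
        · subst ha; simp [L, hz, hy]
        · simp [L, hz, hy, ha, ih y a]
    · by_cases hy : y = v
      · by_cases ha : z = a
        · subst ha; simp [L, hz, hy]
        · simp [L, hz, hy, ha, ih a z]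
      · simp [L, hz, hy, ih y z]

lemma L_add (l : List (V × V)) (x x' : V → ℝ) :
    ∀ y z, L l (x + x') y z = L l x y z + L l x' y z := by
  induction l with
  | nil => intro y z; simp [L]
  | cons p l ih =>
    obtain ⟨v, a⟩ := p
    intro y z
    simp only [L, Pi.add_apply, ih]
    split_ifs <;> ring

lemma L_smul (l : List (V × V)) (t : ℝ) (x : V → ℝ) :
    ∀ y z, L l (t • x) y z = t * L l x y z := by
  induction l with
  | nil => intro y z; simp [L]
  | cons p l ih =>
    obtain ⟨v, a⟩ := p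
    intro y z
    simp only [L, Pi.smul_apply, smul_eq_mul, ih]
    split_ifs <;> ring

lemma L_zero (l : List (V × V)) (y z : V) : L l 0 y z = 0 := by
  have := L_smul l 0 (0 : V → ℝ) y z
  simpa using this

/-- Sequences of leaf insertions with vertex set `W` and root label `r`. -/
inductive Cert : List (V × V) → Finset V → V → Prop
  | base (v0 v1 : V) (h : v0 ≠ v1) : Cert [(v1, v0)] {v0, v1} v1
  | step {l : List (V × V)} {W : Finset V} {r : V} (v a : V) (hc : Cert l W r) (hv : v ∉ W)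
      (ha : a ∈ W) : Cert ((v, a) :: l) (insert v W) r

lemma Cert.root_mem {l : List (V × V)} {W : Finset V} {r : V} (h : Cert l W r) : r ∈ W := by
  induction h with
  | base v0 v1 h => simp
  | step v a hc hv ha ih => exact Finset.mem_insert_of_mem ih

lemma Cert.L_congr {l : List (V × V)} {W : Finset V} {r : V} (h : Cert l W r) {x x' : V → ℝ}
    (hx : ∀ u ∈ W, x u = x' u) : ∀ y z, y ∈ W → z ∈ W → L l x y z = L l x' y z := by
  induction h with
  | base v0 v1 h =>
    intro y z _ _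
    have := hx v1 (by simp)
    simp [L, this]
  | step v a hc hv ha ih =>
    intro y z hy hz
    have ih' := ih (fun u hu => hx u (Finset.mem_insert_of_mem hu))
    have hxv := hx v (Finset.mem_insert_self _ _)
    rw [Finset.mem_insert] at hy hz
    by_cases hz' : z = v
    · by_cases hy' : y = v
      · simp [L, hz', hy']
      · have hyW : y ∈ _ := hy.resolve_left hy'
        simp [L, hz', hy', hxv, ih' y a hyW ha]
    · have hzW : z ∈ _ := hz.resolve_left hz'
      by_cases hy' : y = v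
      · simp [L, hz', hy', hxv, ih' a z ha hzW]
      · have hyW : y ∈ _ := hy.resolve_left hy'
        simp [L, hz', hy', ih' y z hyW hzW]

/-- All values on the edges of `E` are attained. -/
def Surj (l : List (V × V)) (r : V) (E : Finset (Sym2 V)) : Prop :=
  ∀ c : V → V → ℝ, (∀ y z, c y z = - c z y) →
    ∃ s x : V → ℝ, x r = 0 ∧ ∀ y z, s(y, z) ∈ E → s z - s y + L l x y z = c y z

lemma Surj.mono {l : List (V × V)} {r : V} {E E' : Finset (Sym2 V)} (h : Surj l r E)
    (hE : E' ⊆ E) : Surj l r E' := by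
  intro c hc
  obtain ⟨s, x, hx, hs⟩ := h c hc
  exact ⟨s, x, hx, fun y z hyz => hs y z (hE hyz)⟩

lemma surj_base (v0 v1 : V) (h : v0 ≠ v1) (E : Finset (Sym2 V)) (hE : E ⊆ {s(v0, v1)}) :
    Surj [(v1, v0)] v1 E := by
  intro c hc
  refine ⟨fun u => if u = v1 then c v0 v1 else 0, 0, rfl, ?_⟩
  intro y z hyz
  have h1 := hE hyz
  rw [Finset.mem_singleton, Sym2.eq_iff] at h1
  rw [L_zero]
  rcases h1 with ⟨rfl, rfl⟩ | ⟨rfl, rfl⟩
  · simp [h]
  · simp [h, hc y z]

/-- The core computation. -/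
lemma surj_core {l : List (V × V)} {W : Finset V} {r : V} (hC : Cert l W r) {v : V} (hv : v ∉ W)
    {E0 E : Finset (Sym2 V)} (hE0 : ∀ y z, s(y, z) ∈ E0 → y ∈ W ∧ z ∈ W)
    (d e g : V) (hd : d ∈ W) (he : e ∈ W) (hg : g ∈ W) (hde : d ≠ e) (hdg : d ≠ g)
    (hE : ∀ y z, s(y, z) ∈ E → s(y, z) ∈ E0 ∨ s(y, z) = s(d, v) ∨ s(y, z) = s(e, v) ∨
      s(y, z) = s(g, v))
    (s0 x0 : V → ℝ) (hx0 : x0 r = 0) (c : V → V → ℝ) (hc : ∀ y z, c y z = - c z y)
    (h0 : ∀ y z, s(y, z) ∈ E0 → s0 z - s0 y + L l x0 y z = c y z)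
    (h1 : (s0 d - s0 e + L l x0 e d) - (s0 d - s0 g + L l x0 g d) = c e v - c g v) :
    ∃ s x : V → ℝ, x r = 0 ∧ ∀ y z, s(y, z) ∈ E →
      s z - s y + L ((v, d) :: l) x y z = c y z := by
  have hrv : r ≠ v := fun h => hv (h ▸ hC.root_mem)
  have hdv : d ≠ v := fun h => hv (h ▸ hd)
  have hev : e ≠ v := fun h => hv (h ▸ he)
  have hgv : g ≠ v := fun h => hv (h ▸ hg)
  set w : ℝ := c e v - (s0 d - s0 e + L l x0 e d) with hw
  set s : V → ℝ := fun u => if u = v then s0 d + w else s0 u with hs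
  set x : V → ℝ := fun u => if u = v then c d v - w else x0 u with hx
  have hxc : ∀ u ∈ W, x u = x0 u := by
    intro u hu
    have : u ≠ v := fun h => hv (h ▸ hu)
    simp [hx, this]
  have hL : ∀ y z, y ∈ W → z ∈ W → L l x y z = L l x0 y z := hC.L_congr hxc
  have sv : s v = s0 d + w := by simp [hs]
  have su : ∀ u, u ≠ v → s u = s0 u := fun u hu => by simp [hs, hu]
  have xv : x v = c d v - w := by simp [hx]
  have e1 : s v - s d + L ((v, d) :: l) x d v = c d v := by
    have : L ((v, d) :: l) x d v = x v := by simp [L, hdv]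
    rw [this, sv, su d hdv, xv]; ring
  have e2 : s v - s e + L ((v, d) :: l) x e v = c e v := by
    have : L ((v, d) :: l) x e v = L l x e d := by simp [L, hev, hde.symm]
    rw [this, sv, su e hev, hL e d he hd, hw]; ring
  have e3 : s v - s g + L ((v, d) :: l) x g v = c g v := by
    have : L ((v, d) :: l) x g v = L l x g d := by simp [L, hgv, hdg.symm]
    rw [this, sv, su g hgv, hL g d hg hd, hw]; linarith
  have flip : ∀ y z, s z - s y + L ((v, d) :: l) x y z = c y z →
      s y - s z + L ((v, d) :: l) x z y = c z y := by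
    intro y z h
    rw [L_antisymm, hc z y]; linarith
  refine ⟨s, x, by simp [hx, hrv, hx0], ?_⟩
  intro y z hyz
  rcases hE y z hyz with h | h | h | h
  · obtain ⟨hy, hz⟩ := hE0 y z h
    have hyv : y ≠ v := fun h => hv (h ▸ hy)
    have hzv : z ≠ v := fun h => hv (h ▸ hz)
    have : L ((v, d) :: l) x y z = L l x y z := by simp [L, hyv, hzv]
    rw [this, su y hyv, su z hzv, hL y z hy hz]
    exact h0 y z h
  · rcases Sym2.eq_iff.mp h with ⟨rfl, rfl⟩ | ⟨rfl, rfl⟩
    · exact e1
    · exact flip _ _ e1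
  · rcases Sym2.eq_iff.mp h with ⟨rfl, rfl⟩ | ⟨rfl, rfl⟩
    · exact e2
    · exact flip _ _ e2
  · rcases Sym2.eq_iff.mp h with ⟨rfl, rfl⟩ | ⟨rfl, rfl⟩
    · exact e3
    · exact flip _ _ e3

/-- Vertices of degree at most two. -/
lemma surj_two {l : List (V × V)} {W : Finset V} {r : V} (hC : Cert l W r) {v : V} (hv : v ∉ W)
    {E0 E : Finset (Sym2 V)} (hE0 : ∀ y z, s(y, z) ∈ E0 → y ∈ W ∧ z ∈ W)
    (d e : V) (hd : d ∈ W) (he : e ∈ W) (hde : d ≠ e)
    (hE : ∀ y z, s(y, z) ∈ E → s(y, z) ∈ E0 ∨ s(y, z) = s(d, v) ∨ s(y, z) = s(e, v))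
    (h : Surj l r E0) : Surj ((v, d) :: l) r E := by
  intro c hc
  obtain ⟨s0, x0, hx0, h0⟩ := h c hc
  refine surj_core hC hv hE0 d e e hd he he hde hde (fun y z hyz => ?_) s0 x0 hx0 c hc h0
    (by ring)
  rcases hE y z hyz with h | h | h
  · exact Or.inl h
  · exact Or.inr (Or.inl h)
  · exact Or.inr (Or.inr (Or.inl h))

/-- One insertion position works for a vertex of degree three. -/
lemma surj_three_aux {l : List (V × V)} {W : Finset V} {r : V} (hC : Cert l W r) {v : V}
    (hv : v ∉ W) {E0 E : Finset (Sym2 V)} (hE0 : ∀ y z, s(y, z) ∈ E0 → y ∈ W ∧ z ∈ W)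
    (d e g : V) (hd : d ∈ W) (he : e ∈ W) (hg : g ∈ W) (hde : d ≠ e) (hdg : d ≠ g)
    (hE : ∀ y z, s(y, z) ∈ E → s(y, z) ∈ E0 ∨ s(y, z) = s(d, v) ∨ s(y, z) = s(e, v) ∨
      s(y, z) = s(g, v))
    (h : Surj l r E0) (sf xf : V → ℝ) (hxf : xf r = 0)
    (hf : ∀ y z, s(y, z) ∈ E0 → sf z - sf y + L l xf y z = 0)
    (hne : sf e - sf d + L l xf d e ≠ sf g - sf d + L l xf d g) :
    Surj ((v, d) :: l) r E := by
  intro c hc
  obtain ⟨s0, x0, hx0, h0⟩ := h c hc
  set f1 : ℝ := sf d - sf e + L l xf e d with hf1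
  set f2 : ℝ := sf d - sf g + L l xf g d with hf2
  have hne' : f1 - f2 ≠ 0 := by
    intro h
    apply hne
    rw [L_antisymm l xf d e, L_antisymm l xf d g]
    rw [hf1, hf2] at h
    linarith
  set m : ℝ := (c e v - c g v) - ((s0 d - s0 e + L l x0 e d) - (s0 d - s0 g + L l x0 g d)) with hm
  set t : ℝ := m / (f1 - f2) with ht
  have htm : t * (f1 - f2) = m := by rw [ht]; field_simp
  refine surj_core hC hv hE0 d e g hd he hg hde hdg hE (s0 + t • sf) (x0 + t • xf)
    (by simp [hx0, hxf]) c hc ?_ ?_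
  · intro y z hyz
    rw [L_add, L_smul]
    have h2 := h0 y z hyz
    have h3 := hf y z hyz
    simp only [Pi.add_apply, Pi.smul_apply, smul_eq_mul]
    have h4 : t * (sf z - sf y + L l xf y z) = 0 := by rw [h3, mul_zero]
    linarith
  · rw [L_add, L_smul, L_add, L_smul]
    simp only [Pi.add_apply, Pi.smul_apply, smul_eq_mul]
    have h5 : t * f1 - t * f2 = m := by rw [← mul_sub]; exact htm
    rw [hf1, hf2, hm] at h5
    linarith

lemma surj_three {l : List (V × V)} {W : Finset V} {r : V} (hC : Cert l W r) {v : V}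
    (hv : v ∉ W) {E0 E : Finset (Sym2 V)} (hE0 : ∀ y z, s(y, z) ∈ E0 → y ∈ W ∧ z ∈ W)
    (a b c : V) (ha : a ∈ W) (hb : b ∈ W) (hc : c ∈ W) (hab : a ≠ b) (hac : a ≠ c) (hbc : b ≠ c)
    (hE : ∀ y z, s(y, z) ∈ E → s(y, z) ∈ E0 ∨ s(y, z) = s(a, v) ∨ s(y, z) = s(b, v) ∨
      s(y, z) = s(c, v))
    (hnot : s(a, b) ∉ E0) (h : Surj l r (insert s(a, b) E0)) :
    ∃ d ∈ W, Surj ((v, d) :: l) r E := by
  obtain ⟨sf, xf, hxf, hf⟩ := h
    (fun y z => if y = a ∧ z = b then 1 else if y = b ∧ z = a then -1 else 0) (by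
    intro y z
    by_cases h1 : y = a ∧ z = b
    · obtain ⟨rfl, rfl⟩ := h1
      simp [hab, hab.symm]
    · by_cases h2 : y = b ∧ z = a
      · obtain ⟨rfl, rfl⟩ := h2
        simp [hab, hab.symm]
      · have h3 : ¬ (z = a ∧ y = b) := fun h => h2 ⟨h.2, h.1⟩
        have h4 : ¬ (z = b ∧ y = a) := fun h => h1 ⟨h.2, h.1⟩
        simp only [h1, h2, h3, h4, if_false, neg_zero])
  have hE0s : Surj l r E0 := h.mono (Finset.subset_insert _ _)
  have hf0 : ∀ y z, s(y, z) ∈ E0 → sf z - sf y + L l xf y z = 0 := by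
    intro y z hyz
    rw [hf y z (Finset.mem_insert_of_mem hyz)]
    have h1 : ¬ (y = a ∧ z = b) := by
      rintro ⟨rfl, rfl⟩; exact hnot hyz
    have h2 : ¬ (y = b ∧ z = a) := by
      rintro ⟨rfl, rfl⟩; exact hnot (Sym2.eq_swap ▸ hyz)
    simp [h1, h2]
  have hfab : sf b - sf a + L l xf a b = 1 := by
    rw [hf a b (Finset.mem_insert_self _ _)]; simp
  by_cases k1 : sf b - sf a + L l xf a b = sf c - sf a + L l xf a c
  · by_cases k2 : sf a - sf b + L l xf b a = sf c - sf b + L l xf b c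
    · have k3 : sf a - sf c + L l xf c a ≠ sf b - sf c + L l xf c b := by
        intro k3
        rw [L_antisymm l xf b a] at k2
        rw [L_antisymm l xf c a, L_antisymm l xf c b] at k3
        linarith
      refine ⟨c, hc, surj_three_aux hC hv hE0 c a b hc ha hb hac.symm hbc.symm ?_ hE0s sf xf hxf
        hf0 k3⟩
      intro y z hyz
      rcases hE y z hyz with h | h | h | h <;> simp [h]
    · refine ⟨b, hb, surj_three_aux hC hv hE0 b a c hb ha hc hab.symm hbc ?_ hE0s sf xf hxf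
        hf0 k2⟩
      intro y z hyz
      rcases hE y z hyz with h | h | h | h <;> simp [h]
  · exact ⟨a, ha, surj_three_aux hC hv hE0 a b c ha hb hc hab hac hE hE0s sf xf hxf hf0 k1⟩

end Pool.Agent.Lib.MP_d08991_co
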