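import Mathlib

set_option autoImplicit false

/-!
Algebraically independent families of real numbers are dense.
-/

namespace Pool.Agent.Lib.MP_d08991_co

open Cardinal Topology

lemma exists_algInd (ι : Type) [Finite ι] : ∃ z : ι → ℝ, AlgebraicIndependent ℚ z := by
  obtain ⟨s, hs⟩ := exists_isTranscendenceBasis ℚ ℝ
  have hinf : s.Infinite := by
    intro hfin
    have hcs : Countable s := hfin.countable.to_subtype
    have h1 : Algebra.IsAlgebraic (Algebra.adjoin ℚ (Set.range ((↑) : s → ℝ))) ℝ :=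
      hs.isAlgebraic
    have h2 := Algebra.IsAlgebraic.cardinalMk_le_max
      (Algebra.adjoin ℚ (Set.range ((↑) : s → ℝ))) ℝ
    have h3 : Countable (Algebra.adjoin ℚ (Set.range ((↑) : s → ℝ))) := by
      have : Countable (MvPolynomial s ℚ) := by
        rw [← Cardinal.mk_le_aleph0_iff]
        refine le_trans MvPolynomial.cardinalMk_le_max ?_
        simp only [max_le_iff, le_refl, and_true]
        exact ⟨Cardinal.mk_le_aleph0_iff.mpr inferInstance,
          Cardinal.mk_le_aleph0_iff.mpr inferInstance⟩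
      exact hs.1.aevalEquiv.symm.toEquiv.injective.countable
    have h4 : #ℝ ≤ ℵ₀ := h2.trans (max_le (Cardinal.mk_le_aleph0_iff.mpr h3) le_rfl)
    rw [Cardinal.mk_real] at h4
    exact absurd h4 (not_le.mpr Cardinal.aleph0_lt_continuum)
  have : Infinite s := hinf.to_subtype
  obtain ⟨f⟩ : Nonempty (ι ↪ s) := by
    obtain ⟨n, ⟨e⟩⟩ := Finite.exists_equiv_fin ι
    exact ⟨e.toEmbedding.trans (Fin.valEmbedding.trans (Infinite.natEmbedding s))⟩
  exact ⟨fun i => (f i : ℝ), hs.1.comp f f.injective⟩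

lemma algInd_affine {ι : Type} {z : ι → ℝ} (hz : AlgebraicIndependent ℚ z) (ρ τ : ι → ℚ)
    (hρ : ∀ i, ρ i ≠ 0) : AlgebraicIndependent ℚ (fun i => (τ i : ℝ) + (ρ i : ℝ) * z i) := by
  have h1 : AlgebraicIndependent ℚ
      (fun i => MvPolynomial.C (τ i) + MvPolynomial.C (ρ i) * MvPolynomial.X i :
        ι → MvPolynomial ι ℚ) := by
    rw [algebraicIndependent_iff_injective_aeval]
    have h2 : Function.LeftInverse
        (MvPolynomial.aeval (fun i => MvPolynomial.C (ρ i)⁻¹ * (MvPolynomial.X i -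
          MvPolynomial.C (τ i)) : ι → MvPolynomial ι ℚ))
        (MvPolynomial.aeval (fun i => MvPolynomial.C (τ i) + MvPolynomial.C (ρ i) *
          MvPolynomial.X i : ι → MvPolynomial ι ℚ)) := by
      intro p
      rw [← AlgHom.comp_apply]
      have : (MvPolynomial.aeval (fun i => MvPolynomial.C (ρ i)⁻¹ * (MvPolynomial.X i -
          MvPolynomial.C (τ i)) : ι → MvPolynomial ι ℚ)).comp
        (MvPolynomial.aeval (fun i => MvPolynomial.C (τ i) + MvPolynomial.C (ρ i) *
          MvPolynomial.X i : ι → MvPolynomial ι ℚ)) = AlgHom.id ℚ _ := by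
        apply MvPolynomial.algHom_ext
        intro i
        simp only [AlgHom.comp_apply, MvPolynomial.aeval_X, map_add, map_mul,
          MvPolynomial.algHom_C, MvPolynomial.algebraMap_eq, AlgHom.id_apply]
        rw [← mul_assoc, ← MvPolynomial.C_mul, mul_inv_cancel₀ (hρ i), MvPolynomial.C_1]
        ring
      rw [this]; rfl
    exact h2.injective
  have h3 := hz.aeval_of_algebraicIndependent h1
  simpa [map_add, map_mul] using h3

lemma exists_near {ι : Type} [Fintype ι] (c : ι → ℝ) (U : Set (ι → ℝ)) (hU : U ∈ 𝓝 c) :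
    ∃ y ∈ U, AlgebraicIndependent ℚ y := by
  obtain ⟨ε, hε, hball⟩ := Metric.mem_nhds_iff.mp hU
  obtain ⟨z, hz⟩ := exists_algInd ι
  have h1 : ∀ i, ∃ ρ τ : ℚ, ρ ≠ 0 ∧ |(τ : ℝ) + (ρ : ℝ) * z i - c i| < ε / 2 := by
    intro i
    obtain ⟨τ, hτ1, hτ2⟩ := exists_rat_btwn (show c i < c i + ε / 4 by linarith)
    obtain ⟨N, hN⟩ := exists_nat_gt (|z i| / (ε / 4))
    have hN0 : (0 : ℝ) < N := lt_of_le_of_lt (by positivity) hN
    refine ⟨(N : ℚ)⁻¹, τ, by
      have : (N : ℚ) ≠ 0 := by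
        intro h
        have : (N : ℝ) = 0 := by exact_mod_cast h
        linarith
      exact inv_ne_zero this, ?_⟩
    have h2 : |(((N : ℚ)⁻¹ : ℚ) : ℝ) * z i| < ε / 4 := by
      push_cast
      rw [abs_mul, abs_of_pos (inv_pos.mpr hN0), inv_mul_lt_iff₀ hN0]
      rw [div_lt_iff₀ (by linarith)] at hN
      linarith
    have h3 := abs_lt.mp h2
    rw [abs_lt]
    constructor <;> linarith [h3.1, h3.2]
  choose ρ τ hρ hτ using h1
  refine ⟨fun i => (τ i : ℝ) + (ρ i : ℝ) * z i, hball ?_, algInd_affine hz ρ τ hρ⟩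
  rw [Metric.mem_ball]
  refine lt_of_le_of_lt ((dist_pi_le_iff (by linarith : (0 : ℝ) ≤ ε / 2)).mpr
    (fun i => ?_)) (by linarith : ε / 2 < ε)
  rw [Real.dist_eq]
  exact (hτ i).le

/-- The version needed for plane frameworks. -/
lemma exists_generic {V : Type} [Fintype V] (q : V → EuclideanSpace ℝ (Fin 2))
    (U : Set (V → EuclideanSpace ℝ (Fin 2))) (hU : U ∈ 𝓝 q) :
    ∃ p ∈ U, AlgebraicIndependent ℚ (fun x : V × Fin 2 => p x.1 x.2) := by
  let Ψ : (V × Fin 2 → ℝ) → V → EuclideanSpace ℝ (Fin 2) :=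
    fun c v => WithLp.toLp 2 (fun k => c (v, k))
  have hΨ : Continuous Ψ := by
    refine continuous_pi (fun v => ?_)
    exact (PiLp.continuous_toLp 2 _).comp (continuous_pi (fun k => continuous_apply _))
  have hq : Ψ (fun x => q x.1 x.2) = q := by
    funext v
    ext k
    simp [Ψ]
  obtain ⟨y, hy, hyI⟩ := exists_near (fun x : V × Fin 2 => q x.1 x.2) (Ψ ⁻¹' U)
    (hΨ.continuousAt.preimage_mem_nhds (by rw [hq]; exact hU))
  exact ⟨Ψ y, hy, by simpa [Ψ] using hyI⟩

end Pool.Agent.Lib.MP_d08991_co
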