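import Mathlib
import Pool.Agent.Lib.MP_d08991_co.Comb

set_option autoImplicit false

/-!
Every sparse graph has a hierarchical placement for which all edge values are attained.
-/

namespace Pool.Agent.Lib.MP_d08991_co

variable {V : Type} [DecidableEq V]

lemma sym2_inter_card (E : Finset (Sym2 V)) (S T : Finset V) :
    (E ∩ S.sym2).card + (E ∩ T.sym2).card ≤
      (E ∩ (S ∪ T).sym2).card + (E ∩ (S ∩ T).sym2).card := by
  rw [← Finset.card_union_add_card_inter]
  apply Nat.add_le_add
  · apply Finset.card_le_card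
    intro e he
    simp only [Finset.mem_union, Finset.mem_inter, Finset.mem_sym2_iff] at he ⊢
    rcases he with ⟨h1, h2⟩ | ⟨h1, h2⟩
    · exact ⟨h1, fun u hu => Or.inl (h2 u hu)⟩
    · exact ⟨h1, fun u hu => Or.inr (h2 u hu)⟩
  · apply Finset.card_le_card
    intro e he
    simp only [Finset.mem_inter, Finset.mem_sym2_iff] at he ⊢
    exact ⟨he.1.1, fun u hu => ⟨he.1.2 u hu, he.2.2 u hu⟩⟩

/-- Tight sets. -/
lemma exists_tight {E0 : Finset (Sym2 V)} {W : Finset V} {x y : V} (hx : x ∈ W) (hy : y ∈ W)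
    (hxy : x ≠ y)
    (hsp : ∀ S ⊆ W, 2 ≤ S.card → (E0 ∩ S.sym2).card + 3 ≤ 2 * S.card)
    (hbad : ¬ (s(x, y) ∉ E0 ∧
      ∀ S ⊆ W, 2 ≤ S.card → (insert s(x, y) E0 ∩ S.sym2).card + 3 ≤ 2 * S.card)) :
    ∃ S ⊆ W, x ∈ S ∧ y ∈ S ∧ 2 * S.card ≤ (E0 ∩ S.sym2).card + 3 := by
  by_cases hE : s(x, y) ∈ E0
  · refine ⟨{x, y}, ?_, by simp, by simp, ?_⟩
    · intro u hu
      rw [Finset.mem_insert, Finset.mem_singleton] at hu
      rcases hu with rfl | rfl <;> assumption
    · rw [Finset.card_pair hxy]
      have : 0 < (E0 ∩ ({x, y} : Finset V).sym2).card := by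
        rw [Finset.card_pos]
        exact ⟨s(x, y), by simp [hE]⟩
      omega
  · have h1 : ¬ ∀ S ⊆ W, 2 ≤ S.card → (insert s(x, y) E0 ∩ S.sym2).card + 3 ≤ 2 * S.card :=
      fun h => hbad ⟨hE, h⟩
    push Not at h1
    obtain ⟨S, hSW, hS2, hS⟩ := h1
    have h2 := hsp S hSW hS2
    by_cases hin : s(x, y) ∈ S.sym2
    · rw [Finset.mk_mem_sym2_iff] at hin
      refine ⟨S, hSW, hin.1, hin.2, ?_⟩
      have h3 : (insert s(x, y) E0 ∩ S.sym2).card ≤ (E0 ∩ S.sym2).card + 1 := by
        have : insert s(x, y) E0 ∩ S.sym2 ⊆ insert s(x, y) (E0 ∩ S.sym2) := by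
          intro e he
          simp only [Finset.mem_inter, Finset.mem_insert] at he ⊢
          tauto
        exact (Finset.card_le_card this).trans (Finset.card_insert_le _ _)
      omega
    · have : insert s(x, y) E0 ∩ S.sym2 = E0 ∩ S.sym2 := by
        rw [Finset.insert_inter_of_notMem hin]
      rw [this] at hS
      omega

/-- One of the three pairs can be added. -/
lemma exists_pair {E0 : Finset (Sym2 V)} {W : Finset V} {a b c : V} (ha : a ∈ W) (hb : b ∈ W)
    (hc : c ∈ W) (hab : a ≠ b) (hac : a ≠ c) (hbc : b ≠ c)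
    (hd : ∀ e ∈ E0, ¬ e.IsDiag)
    (hsp : ∀ S ⊆ W, 2 ≤ S.card → (E0 ∩ S.sym2).card + 3 ≤ 2 * S.card)
    (hno : ∀ U ⊆ W, a ∈ U → b ∈ U → c ∈ U → (E0 ∩ U.sym2).card + 4 ≤ 2 * U.card) :
    (s(a, b) ∉ E0 ∧
      ∀ S ⊆ W, 2 ≤ S.card → (insert s(a, b) E0 ∩ S.sym2).card + 3 ≤ 2 * S.card) ∨
    (s(b, c) ∉ E0 ∧
      ∀ S ⊆ W, 2 ≤ S.card → (insert s(b, c) E0 ∩ S.sym2).card + 3 ≤ 2 * S.card) ∨
    (s(c, a) ∉ E0 ∧
      ∀ S ⊆ W, 2 ≤ S.card → (insert s(c, a) E0 ∩ S.sym2).card + 3 ≤ 2 * S.card) := by
  by_contra hcon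
  push Not at hcon
  obtain ⟨h1, h2, h3⟩ := hcon
  obtain ⟨A, hAW, haA, hbA, hA⟩ := exists_tight ha hb hab hsp (by push Not; exact h1)
  obtain ⟨B, hBW, hbB, hcB, hB⟩ := exists_tight hb hc hbc hsp (by push Not; exact h2)
  obtain ⟨C, hCW, hcC, haC, hC⟩ := exists_tight hc ha hac.symm hsp (by push Not; exact h3)
  -- two tight sets sharing at least two vertices
  have key : ∀ P Q : Finset V, P ⊆ W → Q ⊆ W → 2 * P.card ≤ (E0 ∩ P.sym2).card + 3 →
      2 * Q.card ≤ (E0 ∩ Q.sym2).card + 3 → 2 ≤ (P ∩ Q).card →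
      a ∈ P ∪ Q → b ∈ P ∪ Q → c ∈ P ∪ Q → False := by
    intro P Q hP hQ hPt hQt hPQ h1 h2 h3
    have e1 := sym2_inter_card E0 P Q
    have e2 := hsp (P ∩ Q) (Finset.inter_subset_left.trans hP) hPQ
    have e3 := hno (P ∪ Q) (Finset.union_subset hP hQ) h1 h2 h3
    have e4 := Finset.card_union_add_card_inter P Q
    omega
  have hABc : (A ∩ B).card ≤ 1 := by
    by_contra h
    exact key A B hAW hBW hA hB (by omega) (by simp [haA]) (by simp [hbA]) (by simp [hcB])
  have hBCc : (B ∩ C).card ≤ 1 := by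
    by_contra h
    exact key B C hBW hCW hB hC (by omega) (by simp [haC]) (by simp [hbB]) (by simp [hcB])
  have hACc : (A ∩ C).card ≤ 1 := by
    by_contra h
    exact key A C hAW hCW hA hC (by omega) (by simp [haC]) (by simp [hbA]) (by simp [hcC])
  have one : ∀ P : Finset V, P.card ≤ 1 → ∀ u ∈ P, ∀ w ∈ P, u = w := by
    intro P hP u hu w hw
    exact Finset.card_le_one.mp hP u hu w hw
  -- edges inside are disjoint
  have hdisj : ∀ P Q : Finset V, (P ∩ Q).card ≤ 1 →
      Disjoint (E0 ∩ P.sym2) (E0 ∩ Q.sym2) := by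
    intro P Q hPQ
    rw [Finset.disjoint_left]
    intro e he1 he2
    rw [Finset.mem_inter, Finset.mem_sym2_iff] at he1 he2
    induction e using Sym2.inductionOn with
    | hf p q =>
      have h1 : p ∈ P ∩ Q := Finset.mem_inter.mpr ⟨he1.2 p (by simp), he2.2 p (by simp)⟩
      have h2 : q ∈ P ∩ Q := Finset.mem_inter.mpr ⟨he1.2 q (by simp), he2.2 q (by simp)⟩
      exact hd _ he1.1 (Sym2.mk_isDiag_iff.mpr (one _ hPQ p h1 q h2))
  have hsum : (E0 ∩ A.sym2).card + (E0 ∩ B.sym2).card + (E0 ∩ C.sym2).card ≤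
      (E0 ∩ (A ∪ B ∪ C).sym2).card := by
    rw [← Finset.card_union_of_disjoint (hdisj A B hABc), ← Finset.card_union_of_disjoint]
    · apply Finset.card_le_card
      intro e he
      simp only [Finset.mem_union, Finset.mem_inter, Finset.mem_sym2_iff] at he ⊢
      rcases he with (⟨h1, h2⟩ | ⟨h1, h2⟩) | ⟨h1, h2⟩
      · exact ⟨h1, fun u hu => Or.inl (Or.inl (h2 u hu))⟩
      · exact ⟨h1, fun u hu => Or.inl (Or.inr (h2 u hu))⟩
      · exact ⟨h1, fun u hu => Or.inr (h2 u hu)⟩
    · rw [Finset.disjoint_union_left]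
      exact ⟨hdisj A C hACc, hdisj B C hBCc⟩
  have hU := hno (A ∪ B ∪ C) (Finset.union_subset (Finset.union_subset hAW hBW) hCW)
    (by simp [haA]) (by simp [hbA]) (by simp [hcB])
  have e1 := Finset.card_union_add_card_inter A B
  have e2 := Finset.card_union_add_card_inter (A ∪ B) C
  have e3 : 1 ≤ (A ∩ B).card := Finset.card_pos.mpr ⟨b, by simp [hbA, hbB]⟩
  have e4 : 2 ≤ ((A ∪ B) ∩ C).card := by
    rw [← Finset.card_pair hac]
    apply Finset.card_le_card
    intro u hu
    rw [Finset.mem_insert, Finset.mem_singleton] at hu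
    rcases hu with rfl | rfl
    · simp [haA, haC]
    · simp [hcB, hcC]
  omega

/-- A vertex with few neighbours. -/
lemma exists_low {E : Finset (Sym2 V)} {W : Finset V} (hW : ∀ e ∈ E, ∀ u ∈ e, u ∈ W)
    (hd : ∀ e ∈ E, ¬ e.IsDiag) (hcard : E.card + 3 ≤ 2 * W.card) :
    ∃ v ∈ W, (W.filter (fun u => s(v, u) ∈ E)).card ≤ 3 := by
  by_contra hcon
  push Not at hcon
  have h1 : ∀ v ∈ W, 4 ≤ (E.filter (fun e => v ∈ e)).card := by
    intro v hv
    refine le_trans (Nat.succ_le_of_lt (hcon v hv)) ?_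
    refine Finset.card_le_card_of_injOn (fun u => s(v, u)) ?_ ?_
    · intro u hu
      simp only [Finset.coe_filter, Set.mem_setOf_eq] at hu ⊢
      exact ⟨hu.2, by simp⟩
    · intro u _ u' _ h
      exact Sym2.congr_right.mp h
  have h2 : ∀ e ∈ E, (W.filter (fun v => v ∈ e)).card ≤ 2 := by
    intro e _
    induction e using Sym2.inductionOn with
    | hf p q =>
      refine le_trans (Finset.card_le_card (t := {p, q}) ?_) Finset.card_le_two
      intro u hu
      simpa using (Finset.mem_filter.mp hu).2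
  have h3 := Finset.sum_card_bipartiteAbove_eq_sum_card_bipartiteBelow
    (s := W) (t := E) (fun v e => v ∈ e)
  have h4 : W.card * 4 ≤ ∑ v ∈ W, (E.filter (fun e => v ∈ e)).card := by
    have := Finset.card_nsmul_le_sum W _ 4 h1
    simpa using this
  have h5 : ∑ e ∈ E, (W.filter (fun v => v ∈ e)).card ≤ E.card * 2 := by
    have := Finset.sum_le_card_nsmul E _ 2 h2
    simpa using this
  have h6 : ∑ v ∈ W, (E.filter (fun e => v ∈ e)).card =
      ∑ e ∈ E, (W.filter (fun v => v ∈ e)).card := h3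
  omega

theorem exists_cert (n : ℕ) : ∀ (W : Finset V) (E : Finset (Sym2 V)), W.card = n + 2 →
    (∀ e ∈ E, ∀ u ∈ e, u ∈ W) → (∀ e ∈ E, ¬ e.IsDiag) →
    (∀ S ⊆ W, 2 ≤ S.card → (E ∩ S.sym2).card + 3 ≤ 2 * S.card) →
    ∃ l r, Cert l W r ∧ Surj l r E := by
  induction n with
  | zero =>
    intro W E hW hEW hd hsp
    obtain ⟨v0, v1, h01, rfl⟩ := Finset.card_eq_two.mp hW
    refine ⟨_, _, Cert.base v0 v1 h01, surj_base v0 v1 h01 E ?_⟩
    intro e he
    have h1 := hEW e he
    have h2 := hd e he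
    induction e using Sym2.inductionOn with
    | hf p q =>
      have hp := h1 p (by simp)
      have hq := h1 q (by simp)
      rw [Sym2.mk_isDiag_iff] at h2
      simp only [Finset.mem_insert, Finset.mem_singleton] at hp hq ⊢
      rcases hp with rfl | rfl <;> rcases hq with rfl | rfl
      · exact absurd rfl h2
      · rfl
      · exact Sym2.eq_swap
      · exact absurd rfl h2
  | succ n ih =>
    intro W E hW hEW hd hsp
    have hEall : E ∩ W.sym2 = E := by
      rw [Finset.inter_eq_left]
      intro e he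
      rw [Finset.mem_sym2_iff]
      exact hEW e he
    obtain ⟨v, hvW, hv3⟩ := exists_low hEW hd (by
      have := hsp W (le_refl _) (by omega)
      rwa [hEall] at this)
    set W0 := W.erase v with hW0
    have hW0c : W0.card = n + 2 := by
      rw [hW0, Finset.card_erase_of_mem hvW, hW]; rfl
    have hvW0 : v ∉ W0 := Finset.notMem_erase v W
    have hins : insert v W0 = W := Finset.insert_erase hvW
    have hW0W : W0 ⊆ W := Finset.erase_subset v W
    set E0 := E.filter (fun e => v ∉ e) with hE0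
    have hE0E : E0 ⊆ E := Finset.filter_subset _ _
    have hE0W : ∀ e ∈ E0, ∀ u ∈ e, u ∈ W0 := by
      intro e he u hu
      rw [hE0, Finset.mem_filter] at he
      rw [hW0, Finset.mem_erase]
      refine ⟨?_, hEW e he.1 u hu⟩
      rintro rfl
      exact he.2 hu
    have hE0W' : ∀ y z, s(y, z) ∈ E0 → y ∈ W0 ∧ z ∈ W0 := fun y z h =>
      ⟨hE0W _ h y (by simp), hE0W _ h z (by simp)⟩
    have hd0 : ∀ e ∈ E0, ¬ e.IsDiag := fun e he => hd e (hE0E he)
    have hsp0 : ∀ S ⊆ W0, 2 ≤ S.card → (E0 ∩ S.sym2).card + 3 ≤ 2 * S.card := by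
      intro S hS hS2
      refine le_trans ?_ (hsp S (hS.trans hW0W) hS2)
      exact Nat.add_le_add_right (Finset.card_le_card (Finset.inter_subset_inter_right hE0E)) 3
    set N := W.filter (fun u => s(v, u) ∈ E) with hN
    have hNW0 : N ⊆ W0 := by
      intro u hu
      rw [hN, Finset.mem_filter] at hu
      rw [hW0, Finset.mem_erase]
      refine ⟨?_, hu.1⟩
      rintro rfl
      exact hd _ hu.2 (Sym2.mk_isDiag_iff.mpr rfl)
    -- every edge is in `E0` or joins `v` to a neighbour
    have hsplit : ∀ y z, s(y, z) ∈ E → s(y, z) ∈ E0 ∨ ∃ u ∈ N, s(y, z) = s(u, v) := by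
      intro y z hyz
      by_cases hv : v ∈ s(y, z)
      · right
        have hy := hEW _ hyz y (by simp)
        have hz := hEW _ hyz z (by simp)
        rw [Sym2.mem_iff] at hv
        rcases hv with rfl | rfl
        · exact ⟨z, by rw [hN, Finset.mem_filter]; exact ⟨hz, hyz⟩, Sym2.eq_swap⟩
        · exact ⟨y, by rw [hN, Finset.mem_filter]; exact ⟨hy, Sym2.eq_swap ▸ hyz⟩, rfl⟩
      · left
        rw [hE0, Finset.mem_filter]
        exact ⟨hyz, hv⟩
    by_cases h2 : N.card ≤ 2
    · -- degree at most two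
      obtain ⟨P, hNP, hPW, hP⟩ := Finset.exists_subsuperset_card_eq hNW0 h2 (by omega)
      obtain ⟨d, e, hde, rfl⟩ := Finset.card_eq_two.mp hP
      obtain ⟨l, r, hC, hS⟩ := ih W0 E0 hW0c hE0W hd0 hsp0
      have hdW : d ∈ W0 := hPW (by simp)
      have heW : e ∈ W0 := hPW (by simp)
      refine ⟨(v, d) :: l, r, hins ▸ Cert.step v d hC hvW0 hdW, ?_⟩
      refine surj_two hC hvW0 hE0W' d e hdW heW hde (fun y z hyz => ?_) hS
      rcases hsplit y z hyz with h | ⟨u, hu, h⟩
      · exact Or.inl h
      · have := hNP hu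
        rw [Finset.mem_insert, Finset.mem_singleton] at this
        rcases this with rfl | rfl
        · exact Or.inr (Or.inl h)
        · exact Or.inr (Or.inr h)
    · have h3 : N.card = 3 := by omega
      obtain ⟨a, b, c, hab, hac, hbc, hNe⟩ := Finset.card_eq_three.mp h3
      have haN : a ∈ N := by rw [hNe]; simp
      have hbN : b ∈ N := by rw [hNe]; simp
      have hcN : c ∈ N := by rw [hNe]; simp
      have haW := hNW0 haN
      have hbW := hNW0 hbN
      have hcW := hNW0 hcN
      have hsplit' : ∀ y z, s(y, z) ∈ E → s(y, z) ∈ E0 ∨ s(y, z) = s(a, v) ∨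
          s(y, z) = s(b, v) ∨ s(y, z) = s(c, v) := by
        intro y z hyz
        rcases hsplit y z hyz with h | ⟨u, hu, h⟩
        · exact Or.inl h
        · rw [hNe] at hu
          simp only [Finset.mem_insert, Finset.mem_singleton] at hu
          rcases hu with rfl | rfl | rfl
          · exact Or.inr (Or.inl h)
          · exact Or.inr (Or.inr (Or.inl h))
          · exact Or.inr (Or.inr (Or.inr h))
      have hno : ∀ U ⊆ W0, a ∈ U → b ∈ U → c ∈ U →
          (E0 ∩ U.sym2).card + 4 ≤ 2 * U.card := by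
        intro U hU ha hb hc
        have hvU : v ∉ U := fun h => hvW0 (hU h)
        have h4 := hsp (insert v U) (by
          rw [← hins]; exact Finset.insert_subset_insert _ hU) (by
          rw [Finset.card_insert_of_notMem hvU]
          have : 0 < U.card := Finset.card_pos.mpr ⟨a, ha⟩
          omega)
        rw [Finset.card_insert_of_notMem hvU] at h4
        have h5 : (E0 ∩ U.sym2).card + 3 ≤ (E ∩ (insert v U).sym2).card := by
          have h6 : (N.image (fun u => s(v, u))).card = 3 := by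
            rw [Finset.card_image_of_injective _ (fun u u' h => Sym2.congr_right.mp h), h3]
          rw [← h6, ← Finset.card_union_of_disjoint]
          · apply Finset.card_le_card
            intro e he
            rw [Finset.mem_union] at he
            rw [Finset.mem_inter, Finset.mem_sym2_iff]
            rcases he with he | he
            · rw [Finset.mem_inter, Finset.mem_sym2_iff] at he
              exact ⟨hE0E he.1, fun u hu => Finset.mem_insert_of_mem (he.2 u hu)⟩
            · rw [Finset.mem_image] at he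
              obtain ⟨u, hu, rfl⟩ := he
              have huE : s(v, u) ∈ E := by
                rw [hN, Finset.mem_filter] at hu; exact hu.2
              refine ⟨huE, fun w hw => ?_⟩
              rw [Sym2.mem_iff] at hw
              rcases hw with rfl | rfl
              · simp
              · rw [hNe] at hu
                simp only [Finset.mem_insert, Finset.mem_singleton] at hu
                rcases hu with rfl | rfl | rfl <;> simp [ha, hb, hc]
          · rw [Finset.disjoint_left]
            intro e he1 he2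
            rw [Finset.mem_inter, hE0, Finset.mem_filter] at he1
            rw [Finset.mem_image] at he2
            obtain ⟨u, _, rfl⟩ := he2
            exact he1.1.2 (by simp)
        omega
      -- the general step
      have step : ∀ p q t : V, p ∈ W0 → q ∈ W0 → t ∈ W0 → p ≠ q → p ≠ t → q ≠ t →
          (∀ y z, s(y, z) ∈ E → s(y, z) ∈ E0 ∨ s(y, z) = s(p, v) ∨
            s(y, z) = s(q, v) ∨ s(y, z) = s(t, v)) →
          (s(p, q) ∉ E0 ∧
            ∀ S ⊆ W0, 2 ≤ S.card → (insert s(p, q) E0 ∩ S.sym2).card + 3 ≤ 2 * S.card) →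
          ∃ l r, Cert l W r ∧ Surj l r E := by
        intro p q t hp hq ht hpq hpt hqt hsp' hgood
        obtain ⟨l, r, hC, hS⟩ := ih W0 (insert s(p, q) E0) hW0c (by
          intro e he u hu
          rw [Finset.mem_insert] at he
          rcases he with rfl | he
          · rw [Sym2.mem_iff] at hu
            rcases hu with rfl | rfl <;> assumption
          · exact hE0W e he u hu) (by
          intro e he
          rw [Finset.mem_insert] at he
          rcases he with rfl | he
          · rw [Sym2.mk_isDiag_iff]; exact hpq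
          · exact hd0 e he) hgood.2
        obtain ⟨d, hdW, hSd⟩ := surj_three hC hvW0 hE0W' p q t hp hq ht hpq hpt hqt hsp'
          hgood.1 hS
        exact ⟨(v, d) :: l, r, hins ▸ Cert.step v d hC hvW0 hdW, hSd⟩
      rcases exists_pair haW hbW hcW hab hac hbc hd0 hsp0 hno with h | h | h
      · exact step a b c haW hbW hcW hab hac hbc hsplit' h
      · refine step b c a hbW hcW haW hbc hab.symm hac.symm (fun y z hyz => ?_) h
        rcases hsplit' y z hyz with h | h | h | h <;> simp [h]
      · refine step c a b hcW haW hbW hac.symm hbc.symm hab (fun y z hyz => ?_) h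
        rcases hsplit' y z hyz with h | h | h | h <;> simp [h]

end Pool.Agent.Lib.MP_d08991_co
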