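import Mathlib
import Pool.Agent.Lib.MP_d08991_co.Comb

set_option autoImplicit false

/-!
The hierarchical realisations and the normalised length equations.
-/

namespace Pool.Agent.Lib.MP_d08991_co

variable {V : Type} [DecidableEq V]

/-- first coordinates -/
def pp : List (V × V) → ℝ → V → ℝ
  | [], _, _ => 0
  | (v, a) :: l, η, y => if y = v then pp l η a + η ^ (2 * l.length) else pp l η y

/-- second coordinates -/
def tt : List (V × V) → ℝ → (V → ℝ) → V → ℝ
  | [], _, _, _ => 0
  | (v, a) :: l, η, x, y => if y = v then tt l η x a + η ^ l.length * x v else tt l η x y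

/-- the scale of a pair -/
def kk : List (V × V) → V → V → ℕ
  | [], _, _ => 0
  | (v, a) :: l, y, z =>
    if z = v then (if y = v then 0 else if y = a then l.length else kk l y a)
    else if y = v then (if z = a then l.length else kk l a z)
    else kk l y z

/-- normalised differences of the first coordinates -/
def PP : List (V × V) → ℝ → V → V → ℝ
  | [], _, _, _ => 0
  | (v, a) :: l, η, y, z =>
    if z = v then (if y = v then 0 else if y = a then 1 else
      PP l η y a + η ^ (2 * (l.length - kk l y a)))
    else if y = v then (if z = a then -1 else PP l η a z - η ^ (2 * (l.length - kk l a z)))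
    else PP l η y z

/-- normalised differences of the second coordinates -/
def TT : List (V × V) → ℝ → (V → ℝ) → V → V → ℝ
  | [], _, _, _, _ => 0
  | (v, a) :: l, η, x, y, z =>
    if z = v then (if y = v then 0 else if y = a then x v else
      TT l η x y a + η ^ (l.length - kk l y a) * x v)
    else if y = v then (if z = a then - x v else
      TT l η x a z - η ^ (l.length - kk l a z) * x v)
    else TT l η x y z

lemma Cert.kk_lt {l : List (V × V)} {W : Finset V} {r : V} (h : Cert l W r) :
    ∀ y z, y ∈ W → z ∈ W → kk l y z < l.length := by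
  induction h with
  | base v0 v1 h =>
    intro y z _ _
    simp only [kk, List.length_nil, List.length_cons]
    split_ifs <;> omega
  | @step l W r v a hc hv ha ih =>
    intro y z hy hz
    rw [Finset.mem_insert] at hy hz
    simp only [kk, List.length_cons]
    by_cases hz' : z = v
    · by_cases hy' : y = v
      · simp [hz', hy']
      · have := ih y a (hy.resolve_left hy') ha
        simp only [hz', hy', if_true, if_false]
        split_ifs <;> omega
    · by_cases hy' : y = v
      · have := ih a z ha (hz.resolve_left hz')
        simp only [hz', hy', if_true, if_false]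
        split_ifs <;> omega
      · have := ih y z (hy.resolve_left hy') (hz.resolve_left hz')
        simp only [hz', hy', if_false]
        omega

lemma Cert.pp_sub {l : List (V × V)} {W : Finset V} {r : V} (h : Cert l W r) (η : ℝ) :
    ∀ y z, y ∈ W → z ∈ W → y ≠ z →
      pp l η z - pp l η y = η ^ (2 * kk l y z) * PP l η y z := by
  induction h with
  | base v0 v1 h =>
    intro y z hy hz hyz
    simp only [Finset.mem_insert, Finset.mem_singleton] at hy hz
    rcases hy with rfl | rfl <;> rcases hz with rfl | rfl <;> simp_all [pp, kk, PP]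
  | @step l W r v a hc hv ha ih =>
    intro y z hy hz hyz
    rw [Finset.mem_insert] at hy hz
    have hav : a ≠ v := fun h => hv (h ▸ ha)
    by_cases hz' : z = v
    · have hy' : y ≠ v := fun h => hyz (h.trans hz'.symm)
      have hyW := hy.resolve_left hy'
      subst hz'
      by_cases hya : y = a
      · subst hya
        simp [pp, kk, PP, hy']
      · have h1 := ih y a hyW ha hya
        have h2 := hc.kk_lt y a hyW ha
        have h3 : η ^ (2 * l.length) = η ^ (2 * kk l y a) * η ^ (2 * (l.length - kk l y a)) := by
          rw [← pow_add]; congr 1; omega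
        simp only [pp, kk, PP, if_true, if_neg hy', if_neg hya]
        rw [mul_add, ← h3, ← h1]; ring
    · have hzW := hz.resolve_left hz'
      by_cases hy' : y = v
      · subst hy'
        by_cases hza : z = a
        · subst hza
          simp [pp, kk, PP, hz']
        · have h1 := ih a z ha hzW (Ne.symm hza)
          have h2 := hc.kk_lt a z ha hzW
          have h3 : η ^ (2 * l.length) = η ^ (2 * kk l a z) *
              η ^ (2 * (l.length - kk l a z)) := by
            rw [← pow_add]; congr 1; omega
          simp only [pp, kk, PP, if_true, if_neg hz', if_neg hza]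
          rw [mul_sub, ← h3, ← h1]; ring
      · have hyW := hy.resolve_left hy'
        simp only [pp, kk, PP, if_neg hz', if_neg hy']
        exact ih y z hyW hzW hyz

lemma Cert.tt_sub {l : List (V × V)} {W : Finset V} {r : V} (h : Cert l W r) (η : ℝ)
    (x : V → ℝ) : ∀ y z, y ∈ W → z ∈ W → y ≠ z →
      tt l η x z - tt l η x y = η ^ (kk l y z) * TT l η x y z := by
  induction h with
  | base v0 v1 h =>
    intro y z hy hz hyz
    simp only [Finset.mem_insert, Finset.mem_singleton] at hy hz
    rcases hy with rfl | rfl <;> rcases hz with rfl | rfl <;> simp_all [tt, kk, TT]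
  | @step l W r v a hc hv ha ih =>
    intro y z hy hz hyz
    rw [Finset.mem_insert] at hy hz
    have hav : a ≠ v := fun h => hv (h ▸ ha)
    by_cases hz' : z = v
    · have hy' : y ≠ v := fun h => hyz (h.trans hz'.symm)
      have hyW := hy.resolve_left hy'
      subst hz'
      by_cases hya : y = a
      · subst hya
        simp [tt, kk, TT, hy']
      · have h1 := ih y a hyW ha hya
        have h2 := hc.kk_lt y a hyW ha
        have h3 : η ^ l.length = η ^ (kk l y a) * η ^ (l.length - kk l y a) := by
          rw [← pow_add]; congr 1; omega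
        simp only [tt, kk, TT, if_true, if_neg hy', if_neg hya]
        rw [mul_add, ← mul_assoc, ← h3, ← h1]; ring
    · have hzW := hz.resolve_left hz'
      by_cases hy' : y = v
      · subst hy'
        by_cases hza : z = a
        · subst hza
          simp [tt, kk, TT, hz']
        · have h1 := ih a z ha hzW (Ne.symm hza)
          have h2 := hc.kk_lt a z ha hzW
          have h3 : η ^ l.length = η ^ (kk l a z) * η ^ (l.length - kk l a z) := by
            rw [← pow_add]; congr 1; omega
          simp only [tt, kk, TT, if_true, if_neg hz', if_neg hza]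
          rw [mul_sub, ← mul_assoc, ← h3, ← h1]; ring
      · have hyW := hy.resolve_left hy'
        simp only [tt, kk, TT, if_neg hz', if_neg hy']
        exact ih y z hyW hzW hyz

lemma Cert.PP_zero {l : List (V × V)} {W : Finset V} {r : V} (h : Cert l W r) :
    ∀ y z, y ∈ W → z ∈ W → y ≠ z → PP l 0 y z = L l (fun _ => 1) y z := by
  induction h with
  | base v0 v1 h =>
    intro y z hy hz hyz
    simp only [Finset.mem_insert, Finset.mem_singleton] at hy hz
    rcases hy with rfl | rfl <;> rcases hz with rfl | rfl <;> simp_all [L, PP]
  | @step l W r v a hc hv ha ih =>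
    intro y z hy hz hyz
    rw [Finset.mem_insert] at hy hz
    by_cases hz' : z = v
    · have hy' : y ≠ v := fun h => hyz (h.trans hz'.symm)
      have hyW := hy.resolve_left hy'
      by_cases hya : y = a
      · simp [L, PP, hz', hya]
      · have h1 := ih y a hyW ha hya
        have h2 := hc.kk_lt y a hyW ha
        have h3 : 2 * (l.length - kk l y a) ≠ 0 := by omega
        simp [L, PP, hy', hz', hya, h1, zero_pow h3]
    · have hzW := hz.resolve_left hz'
      by_cases hy' : y = v
      · by_cases hza : z = a
        · simp [L, PP, hy', hza]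
        · have h1 := ih a z ha hzW (Ne.symm hza)
          have h2 := hc.kk_lt a z ha hzW
          have h3 : 2 * (l.length - kk l a z) ≠ 0 := by omega
          simp [L, PP, hy', hz', hza, h1, zero_pow h3]
      · have hyW := hy.resolve_left hy'
        simp only [L, PP, if_neg hz', if_neg hy']
        exact ih y z hyW hzW hyz

lemma Cert.TT_zero {l : List (V × V)} {W : Finset V} {r : V} (h : Cert l W r) (x : V → ℝ) :
    ∀ y z, y ∈ W → z ∈ W → y ≠ z → TT l 0 x y z = L l x y z := by
  induction h with
  | base v0 v1 h =>
    intro y z hy hz hyz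
    simp only [Finset.mem_insert, Finset.mem_singleton] at hy hz
    rcases hy with rfl | rfl <;> rcases hz with rfl | rfl <;> simp_all [L, TT]
  | @step l W r v a hc hv ha ih =>
    intro y z hy hz hyz
    rw [Finset.mem_insert] at hy hz
    by_cases hz' : z = v
    · have hy' : y ≠ v := fun h => hyz (h.trans hz'.symm)
      have hyW := hy.resolve_left hy'
      by_cases hya : y = a
      · simp [L, TT, hz', hya]
      · have h1 := ih y a hyW ha hya
        have h2 := hc.kk_lt y a hyW ha
        have h3 : l.length - kk l y a ≠ 0 := by omega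
        simp [L, TT, hy', hz', hya, h1, zero_pow h3]
    · have hzW := hz.resolve_left hz'
      by_cases hy' : y = v
      · by_cases hza : z = a
        · simp [L, TT, hy', hza]
        · have h1 := ih a z ha hzW (Ne.symm hza)
          have h2 := hc.kk_lt a z ha hzW
          have h3 : l.length - kk l a z ≠ 0 := by omega
          simp [L, TT, hy', hz', hza, h1, zero_pow h3]
      · have hyW := hy.resolve_left hy'
        simp only [L, TT, if_neg hz', if_neg hy']
        exact ih y z hyW hzW hyz

/-- `L` is a signed coordinate. -/
lemma Cert.L_form {l : List (V × V)} {W : Finset V} {r : V} (h : Cert l W r) :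
    ∀ y z, y ∈ W → z ∈ W → y ≠ z →
      ∃ w : V, ∃ σ : ℝ, σ ^ 2 = 1 ∧ ∀ x : V → ℝ, L l x y z = σ * x w := by
  induction h with
  | base v0 v1 h =>
    intro y z hy hz hyz
    simp only [Finset.mem_insert, Finset.mem_singleton] at hy hz
    rcases hy with rfl | rfl <;> rcases hz with rfl | rfl
    · exact absurd rfl hyz
    · exact ⟨z, 1, by norm_num, fun x => by simp [L, hyz]⟩
    · exact ⟨y, -1, by norm_num, fun x => by simp [L, hyz.symm]⟩
    · exact absurd rfl hyz
  | @step l W r v a hc hv ha ih =>
    intro y z hy hz hyz
    rw [Finset.mem_insert] at hy hz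
    have hav : a ≠ v := fun h => hv (h ▸ ha)
    by_cases hz' : z = v
    · have hy' : y ≠ v := fun h => hyz (h.trans hz'.symm)
      have hyW := hy.resolve_left hy'
      by_cases hya : y = a
      · exact ⟨v, 1, by norm_num, fun x => by simp [L, hz', hya, hav]⟩
      · obtain ⟨w, σ, hσ, hw⟩ := ih y a hyW ha hya
        exact ⟨w, σ, hσ, fun x => by simp [L, hy', hz', hya, hw x]⟩
    · have hzW := hz.resolve_left hz'
      by_cases hy' : y = v
      · by_cases hza : z = a
        · exact ⟨v, -1, by norm_num, fun x => by simp [L, hy', hza, hav]⟩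
        · obtain ⟨w, σ, hσ, hw⟩ := ih a z ha hzW (Ne.symm hza)
          exact ⟨w, σ, hσ, fun x => by simp [L, hy', hz', hza, hw x]⟩
      · have hyW := hy.resolve_left hy'
        obtain ⟨w, σ, hσ, hw⟩ := ih y z hyW hzW hyz
        exact ⟨w, σ, hσ, fun x => by simp [L, hy', hz', hw x]⟩

/-- The special pairs. -/
lemma Cert.pairs {l : List (V × V)} {W : Finset V} {r : V} (h : Cert l W r) :
    ∃ v0 ∈ W, v0 ≠ r ∧ (∀ η : ℝ, pp l η r - pp l η v0 = 1) ∧
      (∀ (η : ℝ) (x : V → ℝ), tt l η x r - tt l η x v0 = x r) ∧
      ∀ v ∈ W, v ≠ v0 → v ≠ r → ∃ a ∈ W, ∃ k : ℕ, 1 ≤ k ∧ k < l.length ∧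
        (∀ η : ℝ, pp l η v - pp l η a = η ^ (2 * k)) ∧
        (∀ (η : ℝ) (x : V → ℝ), tt l η x v - tt l η x a = η ^ k * x v) := by
  induction h with
  | base v0 v1 h =>
    refine ⟨v0, by simp, h, fun η => ?_, fun η x => ?_, ?_⟩
    · simp [pp, h]
    · simp [tt, h]
    · intro v hv h1 h2
      simp only [Finset.mem_insert, Finset.mem_singleton] at hv
      tauto
  | @step l W r v a hc hv ha ih =>
    obtain ⟨v0, hv0, hv0r, h1, h2, h3⟩ := ih
    have hv0v : v0 ≠ v := fun h => hv (h ▸ hv0)
    have hrv : r ≠ v := fun h => hv (h ▸ hc.root_mem)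
    have hav : a ≠ v := fun h => hv (h ▸ ha)
    refine ⟨v0, Finset.mem_insert_of_mem hv0, hv0r, fun η => ?_, fun η x => ?_, ?_⟩
    · simp only [pp, if_neg hv0v, if_neg hrv]; exact h1 η
    · simp only [tt, if_neg hv0v, if_neg hrv]; exact h2 η x
    · intro u hu hu0 hur
      by_cases huv : u = v
      · subst huv
        refine ⟨a, Finset.mem_insert_of_mem ha, l.length, ?_, by simp, fun η => ?_,
          fun η x => ?_⟩
        · have := hc.kk_lt a a ha ha
          omega
        · simp [pp, hav]
        · simp [tt, hav]
      · obtain ⟨b, hb, k, hk1, hk2, hk3, hk4⟩ := h3 u ((Finset.mem_insert.mp hu).resolve_left huv)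
          hu0 hur
        have hbv : b ≠ v := fun h => hv (h ▸ hb)
        refine ⟨b, Finset.mem_insert_of_mem hb, k, hk1, ?_, fun η => ?_, fun η x => ?_⟩
        · rw [List.length_cons]; omega
        · simp only [pp, if_neg huv, if_neg hbv]; exact hk3 η
        · simp only [tt, if_neg huv, if_neg hbv]; exact hk4 η x

end Pool.Agent.Lib.MP_d08991_co
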