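import Mathlib
import Pool.Agent.Lib.MP_d08991_co.Real

set_option autoImplicit false

/-!
Openness of the normalised length equations at the degenerate configurations.
-/

noncomputable section

namespace Pool.Agent.Lib.MP_d08991_co

open Topology

variable {V : Type} [DecidableEq V] [Fintype V]

lemma contDiff_PP (l : List (V × V)) : ∀ y z,
    ContDiff ℝ 1 (fun u : ℝ × (V → ℝ) × (V → ℝ) => PP l u.1 y z) := by
  induction l with
  | nil => intro y z; simp only [PP]; fun_prop
  | cons p l ih =>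
    obtain ⟨v, a⟩ := p
    intro y z
    simp only [PP]
    split_ifs
    · fun_prop
    · fun_prop
    · exact (ih y a).add (contDiff_fst.pow _)
    · fun_prop
    · exact (ih a z).sub (contDiff_fst.pow _)
    · exact ih y z

lemma contDiff_TT (l : List (V × V)) : ∀ y z,
    ContDiff ℝ 1 (fun u : ℝ × (V → ℝ) × (V → ℝ) => TT l u.1 u.2.2 y z) := by
  induction l with
  | nil => intro y z; simp only [TT]; fun_prop
  | cons p l ih =>
    obtain ⟨v, a⟩ := p
    intro y z
    have h1 : ContDiff ℝ 1 (fun u : ℝ × (V → ℝ) × (V → ℝ) => u.2.2 v) := by fun_prop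
    simp only [TT]
    split_ifs
    · fun_prop
    · exact h1
    · exact (ih y a).add ((contDiff_fst.pow _).mul h1)
    · exact h1.neg
    · exact (ih a z).sub ((contDiff_fst.pow _).mul h1)
    · exact ih y z

/-- the target values -/
def kap (l : List (V × V)) (r y z : V) : ℝ := (L l (fun u => if u = r then 0 else 1) y z) ^ 2

/-- the normalised length equation of a pair -/
def FF (l : List (V × V)) (r y z : V) (u : ℝ × (V → ℝ) × (V → ℝ)) : ℝ :=
  2 * PP l u.1 y z * (u.2.1 z - u.2.1 y) + (TT l u.1 u.2.2 y z) ^ 2 +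
    u.1 ^ (2 * (l.length - kk l y z)) * (u.2.1 z - u.2.1 y) ^ 2 - kap l r y z

lemma contDiff_FF (l : List (V × V)) (r y z : V) : ContDiff ℝ 1 (FF l r y z) := by
  have h1 : ContDiff ℝ 1 (fun u : ℝ × (V → ℝ) × (V → ℝ) => u.2.1 z - u.2.1 y) := by fun_prop
  exact ((((contDiff_const.mul (contDiff_PP l y z)).mul h1).add ((contDiff_TT l y z).pow 2)).add
    ((contDiff_fst.pow _).mul (h1.pow 2))).sub contDiff_const

lemma FF_zero {l : List (V × V)} {W : Finset V} {r : V} (hC : Cert l W r) {y z : V} (hy : y ∈ W)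
    (hz : z ∈ W) (hyz : y ≠ z) (s x : V → ℝ) :
    FF l r y z (0, s, x) = 2 * L l (fun _ => 1) y z * (s z - s y) + (L l x y z) ^ 2 -
      kap l r y z := by
  have h1 := hC.kk_lt y z hy hz
  have h2 : 2 * (l.length - kk l y z) ≠ 0 := by omega
  simp only [FF]
  rw [hC.PP_zero y z hy hz hyz, hC.TT_zero x y z hy hz hyz, zero_pow h2]
  ring

variable {E : Finset (Sym2 V)}

/-- all equations -/
def Phi (l : List (V × V)) (r : V) (ey ez : E → V) (u : ℝ × (V → ℝ) × (V → ℝ)) :
    ℝ × (E → ℝ) := (u.1, fun e => FF l r (ey e) (ez e) u)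

lemma Phi_open {l : List (V × V)} {r : V} (hC : Cert l Finset.univ r) (hS : Surj l r E)
    (hd : ∀ e ∈ E, ¬ e.IsDiag) (ey ez : E → V) (he : ∀ e : E, s(ey e, ez e) = e.1)
    (x0 : V → ℝ) (hx0r : x0 r = 0) (hx0 : ∀ u, u ≠ r → x0 u ^ 2 = 1)
    (U : Set (ℝ × (V → ℝ) × (V → ℝ))) (hU : U ∈ 𝓝 ((0 : ℝ), (0 : V → ℝ), x0)) :
    ∀ᶠ w in 𝓝 (0 : ℝ × (E → ℝ)), ∃ u ∈ U, Phi l r ey ez u = w := by
  have hne : ∀ e : E, ey e ≠ ez e := by
    intro e h
    apply hd e.1 e.2
    rw [← he e, Sym2.mk_isDiag_iff]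
    exact h
  have hcd : ContDiff ℝ 1 (Phi l r ey ez) :=
    contDiff_fst.prodMk (contDiff_pi.mpr (fun e => contDiff_FF l r (ey e) (ez e)))
  set a : ℝ × (V → ℝ) × (V → ℝ) := ((0 : ℝ), (0 : V → ℝ), x0) with ha
  set D := fderiv ℝ (Phi l r ey ez) a with hD
  have hst : HasStrictFDerivAt (Phi l r ey ez) D a :=
    hcd.contDiffAt.hasStrictFDerivAt one_ne_zero
  have hsq : ∀ e : E, (L l x0 (ey e) (ez e)) ^ 2 = kap l r (ey e) (ez e) := by
    intro e
    obtain ⟨w, σ, hσ, hw⟩ := hC.L_form (ey e) (ez e) (Finset.mem_univ _) (Finset.mem_univ _)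
      (hne e)
    rw [kap, hw, hw]
    by_cases hwr : w = r
    · simp [hwr, hx0r]
    · simp [hwr, mul_pow, hx0 w hwr]
  have hPa : Phi l r ey ez a = 0 := by
    refine Prod.ext rfl (funext fun e => ?_)
    show FF l r (ey e) (ez e) (0, 0, x0) = 0
    rw [FF_zero hC (Finset.mem_univ _) (Finset.mem_univ _) (hne e), hsq e]
    simp
  -- the derivative in the directions of `s` and `x`
  have hdir : ∀ ds dx : V → ℝ, D (0, ds, dx) = (0, fun e =>
      2 * L l (fun _ => 1) (ey e) (ez e) * (ds (ez e) - ds (ey e)) +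
        2 * L l x0 (ey e) (ez e) * L l dx (ey e) (ez e)) := by
    intro ds dx
    have h1 : HasDerivAt (fun t : ℝ => Phi l r ey ez ((0 : ℝ), t • ds, x0 + t • dx))
        (D (0, ds, dx)) 0 := by
      have h2 : HasDerivAt (fun t : ℝ => ((0 : ℝ), t • ds, x0 + t • dx)) (0, ds, dx) 0 := by
        refine (hasDerivAt_const _ _).prodMk (HasDerivAt.prodMk ?_ ?_)
        · simpa using (hasDerivAt_id (0 : ℝ)).smul_const ds
        · simpa using ((hasDerivAt_id (0 : ℝ)).smul_const dx).const_add x0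
      have h3 : HasFDerivAt (Phi l r ey ez) D ((0 : ℝ), (0 : ℝ) • ds, x0 + (0 : ℝ) • dx) := by
        have : ((0 : ℝ), (0 : ℝ) • ds, x0 + (0 : ℝ) • dx) = a := by simp [ha]
        rw [this]
        exact hst.hasFDerivAt
      exact h3.comp_hasDerivAt (0 : ℝ) h2
    have h4 : HasDerivAt (fun t : ℝ => Phi l r ey ez ((0 : ℝ), t • ds, x0 + t • dx))
        (0, fun e => 2 * L l (fun _ => 1) (ey e) (ez e) * (ds (ez e) - ds (ey e)) +
        2 * L l x0 (ey e) (ez e) * L l dx (ey e) (ez e)) 0 := by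
      refine (hasDerivAt_const _ _).prodMk (hasDerivAt_pi.mpr (fun e => ?_))
      have h5 : (fun t : ℝ => FF l r (ey e) (ez e) ((0 : ℝ), t • ds, x0 + t • dx)) =
          fun t : ℝ => (2 * L l (fun _ => 1) (ey e) (ez e) * (ds (ez e) - ds (ey e))) * t +
            (L l x0 (ey e) (ez e) + L l dx (ey e) (ez e) * t) ^ 2 -
              kap l r (ey e) (ez e) := by
        funext t
        rw [FF_zero hC (Finset.mem_univ _) (Finset.mem_univ _) (hne e), L_add, L_smul]
        simp only [Pi.smul_apply, smul_eq_mul]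
        ring
      rw [h5]
      have h6 : HasDerivAt (fun t : ℝ =>
          (2 * L l (fun _ => 1) (ey e) (ez e) * (ds (ez e) - ds (ey e))) * t)
          ((2 * L l (fun _ => 1) (ey e) (ez e) * (ds (ez e) - ds (ey e))) * 1) 0 :=
        (hasDerivAt_id (0 : ℝ)).const_mul _
      have h7 : HasDerivAt (fun t : ℝ => L l x0 (ey e) (ez e) + L l dx (ey e) (ez e) * t)
          (L l dx (ey e) (ez e) * 1) 0 :=
        ((hasDerivAt_id (0 : ℝ)).const_mul _).const_add _
      have h8 := (h6.add (h7.pow 2)).sub_const (kap l r (ey e) (ez e))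
      convert h8 using 1
      simp
      ring
    exact h1.unique h4
  have hfst : ∀ v : ℝ × (V → ℝ) × (V → ℝ), (D v).1 = v.1 := by
    intro v
    have h1 : HasFDerivAt (fun u => (Phi l r ey ez u).1)
        ((ContinuousLinearMap.fst ℝ ℝ (E → ℝ)).comp D) a :=
      (ContinuousLinearMap.fst ℝ ℝ (E → ℝ)).hasFDerivAt.comp a hst.hasFDerivAt
    have h2 : HasFDerivAt (fun u : ℝ × (V → ℝ) × (V → ℝ) => (Phi l r ey ez u).1)
        (ContinuousLinearMap.fst ℝ ℝ ((V → ℝ) × (V → ℝ))) a := hasFDerivAt_fst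
    have h3 := h1.unique h2
    exact congrArg (fun f => f v) h3
  have hrange : D.range = ⊤ := by
    rw [LinearMap.range_eq_top]
    rintro ⟨α, c⟩
    set c' : E → ℝ := c - α • (D (1, 0, 0)).2 with hc'
    obtain ⟨s', x', hx'r, hs'⟩ := hS (fun y z => L l (fun _ => 1) y z *
        (if h : s(y, z) ∈ E then c' ⟨s(y, z), h⟩ else 0) / 2) (by
      intro y z
      have h1 : (if h : s(y, z) ∈ E then c' ⟨s(y, z), h⟩ else 0) =
          (if h : s(z, y) ∈ E then c' ⟨s(z, y), h⟩ else 0) := by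
        have h2 : s(y, z) = s(z, y) := Sym2.eq_swap
        simp only [h2]
      rw [h1, L_antisymm l _ y z]
      ring)
    refine ⟨α • (1, 0, 0) + (0, s', x0 * x'), ?_⟩
    show D (α • (1, 0, 0) + (0, s', x0 * x')) = (α, c)
    rw [map_add, map_smul, hdir]
    refine Prod.ext ?_ ?_
    · simp only [Prod.fst_add, Prod.smul_fst, hfst, smul_eq_mul, mul_one, add_zero]
    · funext e
      simp only [Prod.snd_add, Prod.smul_snd, Pi.add_apply, Pi.smul_apply, smul_eq_mul]
      have h1 := hs' (ey e) (ez e) (by rw [he e]; exact e.2)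
      have h2 : s(ey e, ez e) ∈ E := by rw [he e]; exact e.2
      have h3 : (⟨s(ey e, ez e), h2⟩ : E) = e := Subtype.ext (he e)
      rw [dif_pos h2, h3] at h1
      obtain ⟨w, σ, hσ, hw⟩ := hC.L_form (ey e) (ez e) (Finset.mem_univ _) (Finset.mem_univ _)
        (hne e)
      rw [hw, hw] at h1
      rw [hw, hw, hw]
      have h4 : c' e = c e - α * (D (1, 0, 0)).2 e := rfl
      have h5 : x0 w * (x0 * x') w = x' w := by
        by_cases hwr : w = r
        · rw [hwr, hx0r, hx'r]; ring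
        · have := hx0 w hwr
          simp only [Pi.mul_apply]
          linear_combination x' w * this
      have h6 : 2 * σ * (s' (ez e) - s' (ey e)) + 2 * x' w = c' e := by
        have h7 : 2 * σ * (s' (ez e) - s' (ey e) + σ * x' w) =
            2 * σ * (σ * 1 * c' e / 2) := by rw [h1]
        linear_combination h7 + (c' e - 2 * x' w) * hσ
      linear_combination h6 + h4 + 2 * σ ^ 2 * h5 + 2 * x' w * hσ
  have hmap := hst.map_nhds_eq_of_surj hrange
  rw [hPa] at hmap
  have h9 : Phi l r ey ez '' U ∈ 𝓝 (0 : ℝ × (E → ℝ)) := hmap ▸ Filter.image_mem_map hU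
  filter_upwards [h9] with w hw
  exact hw

end Pool.Agent.Lib.MP_d08991_co
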