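import Mathlib
import Pool.Agent.Lib.MP_d08991_co.Open
import Pool.Agent.Lib.MP_d08991_co.Henneberg
import Pool.Agent.Lib.MP_d08991_co.Gen

set_option autoImplicit false

/-!
The lower bound for the number of realisations.
-/

noncomputable section

namespace Pool.Agent.Lib.MP_d08991_co

open Topology

variable {V : Type} [DecidableEq V]

/-- the planar configuration -/
def conf (l : List (V × V)) (u : ℝ × (V → ℝ) × (V → ℝ)) (v : V) : EuclideanSpace ℝ (Fin 2) :=
  WithLp.toLp 2 ![pp l u.1 v + u.1 ^ (2 * l.length) * u.2.1 v,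
    u.1 ^ l.length * tt l u.1 u.2.2 v]

lemma dist_sq_two (a b : EuclideanSpace ℝ (Fin 2)) :
    dist a b ^ 2 = (a 0 - b 0) ^ 2 + (a 1 - b 1) ^ 2 := by
  rw [EuclideanSpace.dist_eq, Real.sq_sqrt (by positivity), Fin.sum_univ_two, Real.dist_eq,
    Real.dist_eq, sq_abs, sq_abs]

lemma conf_dist {l : List (V × V)} {W : Finset V} {r : V} (hC : Cert l W r) {y z : V}
    (hy : y ∈ W) (hz : z ∈ W) (hyz : y ≠ z) (u : ℝ × (V → ℝ) × (V → ℝ)) :
    dist (conf l u y) (conf l u z) ^ 2 = u.1 ^ (4 * kk l y z) * (PP l u.1 y z) ^ 2 +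
      u.1 ^ (2 * l.length + 2 * kk l y z) * (FF l r y z u + kap l r y z) := by
  obtain ⟨η, s, x⟩ := u
  have h1 := hC.pp_sub η y z hy hz hyz
  have h2 := hC.tt_sub η x y z hy hz hyz
  have h3 := hC.kk_lt y z hy hz
  have h4 : η ^ (4 * l.length) = η ^ (2 * l.length + 2 * kk l y z) *
      η ^ (2 * (l.length - kk l y z)) := by
    rw [← pow_add]; congr 1; omega
  have h5 : η ^ (4 * l.length) = (η ^ (2 * l.length)) ^ 2 := by
    rw [← pow_mul]; congr 1; omega
  have h6 : η ^ (4 * kk l y z) = (η ^ (2 * kk l y z)) ^ 2 := by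
    rw [← pow_mul]; congr 1; omega
  have h7 : η ^ (2 * l.length + 2 * kk l y z) = η ^ (2 * l.length) * η ^ (2 * kk l y z) := by
    rw [pow_add]
  have h8 : η ^ (2 * l.length) = (η ^ l.length) ^ 2 := by
    rw [← pow_mul]; congr 1; omega
  have h9 : η ^ (2 * kk l y z) = (η ^ kk l y z) ^ 2 := by
    rw [← pow_mul]; congr 1; omega
  rw [dist_sq_two]
  simp only [conf, FF, Matrix.cons_val_zero, Matrix.cons_val_one]
  rw [h5] at h4
  have e1 : pp l η y + η ^ (2 * l.length) * s y - (pp l η z + η ^ (2 * l.length) * s z) =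
      -(η ^ (2 * kk l y z) * PP l η y z + η ^ (2 * l.length) * (s z - s y)) := by
    rw [← h1]; ring
  have e2 : η ^ l.length * tt l η x y - η ^ l.length * tt l η x z =
      -(η ^ l.length * (η ^ kk l y z * TT l η x y z)) := by
    rw [← h2]; ring
  rw [e1, e2, h6]
  have e3 : (-(η ^ (2 * kk l y z) * PP l η y z + η ^ (2 * l.length) * (s z - s y))) ^ 2 =
      (η ^ (2 * kk l y z)) ^ 2 * PP l η y z ^ 2 +
        2 * (η ^ (2 * l.length) * η ^ (2 * kk l y z)) * PP l η y z * (s z - s y) +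
        (η ^ (2 * l.length)) ^ 2 * (s z - s y) ^ 2 := by ring
  have e4 : (-(η ^ l.length * (η ^ kk l y z * TT l η x y z))) ^ 2 =
      (η ^ l.length) ^ 2 * (η ^ kk l y z) ^ 2 * TT l η x y z ^ 2 := by ring
  rw [e3, e4, ← h8, ← h9, h4, ← h7]
  ring

/-- cross product of two difference vectors -/
def crs (q : V → EuclideanSpace ℝ (Fin 2)) (a v b w : V) : ℝ :=
  (q v 0 - q a 0) * (q w 1 - q b 1) - (q v 1 - q a 1) * (q w 0 - q b 0)

/-- inner product of two difference vectors -/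
def inn (q : V → EuclideanSpace ℝ (Fin 2)) (a v b w : V) : ℝ :=
  (q v 0 - q a 0) * (q w 0 - q b 0) + (q v 1 - q a 1) * (q w 1 - q b 1)

lemma inn_eq (q : V → EuclideanSpace ℝ (Fin 2)) (a v b w : V) :
    inn q a v b w = (dist (q a) (q w) ^ 2 + dist (q v) (q b) ^ 2 - dist (q a) (q b) ^ 2 -
      dist (q v) (q w) ^ 2) / 2 := by
  rw [dist_sq_two, dist_sq_two, dist_sq_two, dist_sq_two, inn]
  ring

lemma crs_mul (q q' : V → EuclideanSpace ℝ (Fin 2))
    (h : ∀ u v, dist (q u) (q v) = dist (q' u) (q' v)) (a v a' v' b w : V) :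
    crs q a v b w * crs q a' v' b w = crs q' a v b w * crs q' a' v' b w := by
  have hI : ∀ a v b w, inn q a v b w = inn q' a v b w := by
    intro a v b w
    rw [inn_eq, inn_eq, h, h, h, h]
  have key : ∀ p : V → EuclideanSpace ℝ (Fin 2), crs p a v b w * crs p a' v' b w =
      inn p a v a' v' * inn p b w b w - inn p a v b w * inn p a' v' b w := by
    intro p
    simp only [crs, inn]
    ring
  rw [key, key, hI, hI, hI, hI]

/-- the neighbourhoods -/
def nbd (r : V) (x0 : V → ℝ) : Set (ℝ × (V → ℝ) × (V → ℝ)) :=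
  {u | |u.1| < 1 / 10 ∧ |u.2.2 r| < 1 / 10 ∧ (∀ v, |u.2.1 v| < 1) ∧ ∀ v, |u.2.2 v - x0 v| < 1 / 2}

lemma nbd_mem [Fintype V] (r : V) (x0 : V → ℝ) (hx0 : x0 r = 0) :
    nbd r x0 ∈ 𝓝 ((0 : ℝ), (0 : V → ℝ), x0) := by
  have h1 : IsOpen (nbd r x0) := by
    have e : nbd r x0 = {u | |u.1| < 1 / 10} ∩ ({u | |u.2.2 r| < 1 / 10} ∩
      ((⋂ v, {u | |u.2.1 v| < 1}) ∩ ⋂ v, {u | |u.2.2 v - x0 v| < 1 / 2})) := by
      ext u
      simp [nbd]
    rw [e]
    refine IsOpen.inter ?_ (IsOpen.inter ?_ (IsOpen.inter ?_ ?_))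
    · exact isOpen_lt (by fun_prop) continuous_const
    · exact isOpen_lt (by fun_prop) continuous_const
    · exact isOpen_iInter_of_finite (fun v => isOpen_lt (by fun_prop) continuous_const)
    · exact isOpen_iInter_of_finite (fun v => isOpen_lt (by fun_prop) continuous_const)
  refine h1.mem_nhds ?_
  refine ⟨by simp, by simp [hx0], fun v => by simp, fun v => by simp⟩

/-- the sign of the cross product -/
lemma crs_sign {l : List (V × V)} {r v0 v a : V} {k : ℕ} (hk1 : 1 ≤ k) (hk2 : k < l.length)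
    (hr1 : ∀ η : ℝ, pp l η r - pp l η v0 = 1)
    (hr2 : ∀ (η : ℝ) (x : V → ℝ), tt l η x r - tt l η x v0 = x r)
    (hv1 : ∀ η : ℝ, pp l η v - pp l η a = η ^ (2 * k))
    (hv2 : ∀ (η : ℝ) (x : V → ℝ), tt l η x v - tt l η x a = η ^ k * x v)
    (x0 : V → ℝ) (hx0 : x0 v = 1 ∨ x0 v = -1)
    (u : ℝ × (V → ℝ) × (V → ℝ)) (hu : u ∈ nbd r x0) (hpos : 0 < u.1) :
    x0 v * crs (conf l u) a v v0 r < 0 := by
  obtain ⟨η, s, x⟩ := u
  obtain ⟨h1, h2, h3, h4⟩ := hu
  simp only at h1 h2 h3 h4 hpos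
  have hη : η < 1 / 10 := (abs_lt.mp h1).2
  have e1 := hr1 η
  have e2 := hr2 η x
  have e3 := hv1 η
  have e4 := hv2 η x
  have p1 : η ^ (2 * l.length) = η ^ l.length * η ^ k * η ^ (l.length - k) := by
    rw [← pow_add, ← pow_add]; congr 1; omega
  have p2 : η ^ (2 * k) = η ^ k * η ^ k := by rw [← pow_add]; congr 1; omega
  have hcr : crs (conf l (η, s, x)) a v v0 r = η ^ l.length * η ^ k *
      ((η ^ k + η ^ l.length * η ^ (l.length - k) * (s v - s a)) * x r -
        x v * (1 + η ^ (2 * l.length) * (s r - s v0))) := by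
    simp only [crs, conf, Matrix.cons_val_zero, Matrix.cons_val_one]
    have f1 : pp l η v + η ^ (2 * l.length) * s v - (pp l η a + η ^ (2 * l.length) * s a) =
        η ^ k * (η ^ k + η ^ l.length * η ^ (l.length - k) * (s v - s a)) := by
      rw [mul_add, ← p2, ← e3, p1]; ring
    have f2 : η ^ l.length * tt l η x r - η ^ l.length * tt l η x v0 = η ^ l.length * x r := by
      rw [← e2]; ring
    have f3 : η ^ l.length * tt l η x v - η ^ l.length * tt l η x a =
        η ^ l.length * (η ^ k * x v) := by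
      rw [← e4]; ring
    have f4 : pp l η r + η ^ (2 * l.length) * s r - (pp l η v0 + η ^ (2 * l.length) * s v0) =
        1 + η ^ (2 * l.length) * (s r - s v0) := by
      linear_combination e1
    rw [f1, f2, f3, f4]
    ring
  rw [hcr]
  have small : ∀ m : ℕ, 1 ≤ m → 0 < η ^ m ∧ η ^ m < 1 / 10 := by
    intro m hm
    refine ⟨pow_pos hpos m, lt_of_le_of_lt ?_ hη⟩
    calc η ^ m ≤ η ^ 1 := pow_le_pow_of_le_one hpos.le (by linarith) hm
      _ = η := pow_one η
  obtain ⟨b1, b2⟩ := small k hk1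
  obtain ⟨c1, c2⟩ := small l.length (by omega)
  obtain ⟨d1, d2⟩ := small (l.length - k) (by omega)
  obtain ⟨g1, g2⟩ := small (2 * l.length) (by omega)
  have hsv := abs_lt.mp (h3 v)
  have hsa := abs_lt.mp (h3 a)
  have hsr := abs_lt.mp (h3 r)
  have hs0 := abs_lt.mp (h3 v0)
  have hxr := abs_lt.mp h2
  have hxv := abs_lt.mp (h4 v)
  set β := η ^ k
  set γ := η ^ l.length * η ^ (l.length - k) with hγ
  set δ := η ^ (2 * l.length)
  have hγ1 : 0 < γ := mul_pos c1 d1
  have hγ2 : γ < 1 / 10 := by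
    calc γ < 1 / 10 * (1 / 10) := mul_lt_mul'' c2 d2 c1.le d1.le
      _ < 1 / 10 := by norm_num
  have hA : |(β + γ * (s v - s a)) * x r| ≤ 3 / 10 * (1 / 10) := by
    rw [abs_mul]
    refine mul_le_mul ?_ h2.le (abs_nonneg _) (by norm_num)
    rw [abs_le]
    constructor <;> nlinarith
  have hA' := abs_le.mp hA
  have hB : 8 / 10 ≤ 1 + δ * (s r - s v0) := by nlinarith
  have hpos2 : 0 < η ^ l.length * β := mul_pos c1 b1
  have main : x0 v * ((β + γ * (s v - s a)) * x r - x v * (1 + δ * (s r - s v0))) < 0 := by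
    rcases hx0 with h | h
    · rw [h] at hxv ⊢
      nlinarith [hxv.1, hB]
    · rw [h] at hxv ⊢
      nlinarith [hxv.2, hB]
  calc x0 v * (η ^ l.length * β *
      ((β + γ * (s v - s a)) * x r - x v * (1 + δ * (s r - s v0)))) =
      (η ^ l.length * β) *
      (x0 v * ((β + γ * (s v - s a)) * x r - x v * (1 + δ * (s r - s v0)))) := by ring
    _ < 0 := mul_neg_of_pos_of_neg hpos2 main

end Pool.Agent.Lib.MP_d08991_co
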