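import Mathlib
import Pool.Agent.Lib.MP_d08991_co.Main

set_option autoImplicit false

/-!
The lower bound for the number of realisations: conclusion.
-/

noncomputable section

namespace Pool.Agent.Lib.MP_d08991_co

open Topology

variable {V : Type} [DecidableEq V]

/-- sign patterns -/
def pat (r : V) (S : Finset V) (b : S → Bool) (u : V) : ℝ :=
  if u = r then 0 else if h : u ∈ S then (if b ⟨u, h⟩ then 1 else -1) else 1

lemma pat_root (r : V) (S : Finset V) (b : S → Bool) : pat r S b r = 0 := by simp [pat]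

lemma pat_sign (r : V) (S : Finset V) (b : S → Bool) {u : V} (hu : u ≠ r) :
    pat r S b u = 1 ∨ pat r S b u = -1 := by
  unfold pat
  rw [if_neg hu]
  split_ifs <;> simp

lemma pat_notMem (r : V) (S : Finset V) (b : S → Bool) {u : V} (hu : u ≠ r) (h : u ∉ S) :
    pat r S b u = 1 := by
  unfold pat
  rw [if_neg hu, dif_neg h]

lemma pat_mem (r : V) (S : Finset V) (b : S → Bool) {u : V} (hu : u ≠ r) (h : u ∈ S) :
    pat r S b u = if b ⟨u, h⟩ then 1 else -1 := by
  unfold pat
  rw [if_neg hu, dif_pos h]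

theorem main_bound [Fintype V] (E : Finset (Sym2 V)) (hd : ∀ e ∈ E, ¬ e.IsDiag)
    (hsp : ∀ S : Finset V, 2 ≤ S.card → (E ∩ S.sym2).card + 3 ≤ 2 * S.card)
    (hn : 2 ≤ Fintype.card V) :
    ∃ p : V → EuclideanSpace ℝ (Fin 2),
      AlgebraicIndependent ℚ (fun x : V × Fin 2 => p x.1 x.2) ∧
      ∃ q : Fin (2 ^ (Fintype.card V - 3)) → V → EuclideanSpace ℝ (Fin 2),
        (∀ i u v, s(u, v) ∈ E → dist (q i u) (q i v) = dist (p u) (p v)) ∧
        (∀ i j, i ≠ j → ∃ u v, dist (q i u) (q i v) ≠ dist (q j u) (q j v)) := by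
  classical
  by_cases hn2 : Fintype.card V = 2
  · obtain ⟨p, -, hp⟩ := exists_generic (V := V) (fun _ => 0) Set.univ Filter.univ_mem
    refine ⟨p, hp, fun _ => p, fun _ _ _ _ => rfl, ?_⟩
    intro i j hij
    exfalso
    apply hij
    have h1 : 2 ^ (Fintype.card V - 3) = 1 := by rw [hn2]; norm_num
    have hi := lt_of_lt_of_eq i.2 h1
    have hj := lt_of_lt_of_eq j.2 h1
    exact Fin.ext (by omega)
  -- the placement
  obtain ⟨l, r, hC, hS⟩ := exists_cert (Fintype.card V - 2) Finset.univ E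
    (by rw [Finset.card_univ]; omega) (fun _ _ _ _ => Finset.mem_univ _) hd
    (fun S _ => hsp S)
  obtain ⟨v0, -, hv0r, hr1, hr2, hpairs⟩ := hC.pairs
  set Lab : Finset V := (Finset.univ.erase v0).erase r with hLab
  have hLabc : Lab.card = Fintype.card V - 2 := by
    rw [hLab, Finset.card_erase_of_mem (by simp [hv0r.symm]),
      Finset.card_erase_of_mem (Finset.mem_univ _), Finset.card_univ]
    omega
  obtain ⟨vs, hvs⟩ : Lab.Nonempty := by
    rw [← Finset.card_pos, hLabc]; omega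
  set S := Lab.erase vs with hSdef
  have hScard : S.card = Fintype.card V - 3 := by
    rw [hSdef, Finset.card_erase_of_mem hvs, hLabc]; omega
  have hLabmem : ∀ u, u ∈ Lab → u ≠ r ∧ u ≠ v0 := by
    intro u hu
    rw [hLab, Finset.mem_erase, Finset.mem_erase] at hu
    exact ⟨hu.1, hu.2.1⟩
  have hvsr := hLabmem vs hvs
  have hvsS : vs ∉ S := Finset.notMem_erase vs Lab
  let e : Fin (2 ^ (Fintype.card V - 3)) ≃ (S → Bool) :=
    (Fintype.equivFinOfCardEq (by
      rw [Fintype.card_fun, Fintype.card_bool, Fintype.card_coe, hScard])).symm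
  -- endpoints of the edges
  have hends : ∀ f : E, ∃ y z : V, s(y, z) = f.1 := by
    rintro ⟨f, hf⟩
    induction f using Sym2.inductionOn with
    | hf y z => exact ⟨y, z, rfl⟩
  choose ey ez hez using hends
  have hne : ∀ f : E, ey f ≠ ez f := by
    intro f h
    apply hd f.1 f.2
    rw [← hez f, Sym2.mk_isDiag_iff]
    exact h
  -- openness
  have hopen : ∀ b : S → Bool, ∀ᶠ w in 𝓝 (0 : ℝ × (E → ℝ)),
      ∃ u ∈ nbd r (pat r S b), Phi l r ey ez u = w := by
    intro b
    refine Phi_open hC hS hd ey ez hez (pat r S b) (pat_root r S b) (fun u hu => ?_) _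
      (nbd_mem r _ (pat_root r S b))
    rcases pat_sign r S b hu with h | h <;> rw [h] <;> norm_num
  have hall := Filter.eventually_all.mpr hopen
  rw [Metric.eventually_nhds_iff] at hall
  obtain ⟨ε, hε, hall⟩ := hall
  set η : ℝ := ε / 2 with hη
  have hηpos : 0 < η := by positivity
  have hdist : ∀ c : E → ℝ, ‖c‖ < ε → dist ((η, c) : ℝ × (E → ℝ)) 0 < ε := by
    intro c hc
    rw [dist_zero_right, Prod.norm_def, max_lt_iff]
    refine ⟨?_, hc⟩
    rw [Real.norm_eq_abs, abs_of_pos hηpos, hη]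
    linarith
  obtain ⟨u0, -, hu0⟩ := hall (hdist 0 (by simpa using hε)) (fun _ => true)
  have hu01 : u0.1 = η := congrArg Prod.fst hu0
  have hu0F : ∀ f : E, FF l r (ey f) (ez f) u0 = 0 := fun f =>
    congrFun (congrArg Prod.snd hu0) f
  -- the generic point
  set cs : (V → EuclideanSpace ℝ (Fin 2)) → (E → ℝ) := fun p f =>
    (dist (p (ey f)) (p (ez f)) ^ 2 - η ^ (4 * kk l (ey f) (ez f)) *
      (PP l η (ey f) (ez f)) ^ 2) / η ^ (2 * l.length + 2 * kk l (ey f) (ez f)) -
      kap l r (ey f) (ez f) with hcs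
  have hcont : Continuous cs := by
    refine continuous_pi (fun f => ?_)
    refine Continuous.sub (Continuous.div_const (Continuous.sub ?_ continuous_const) _)
      continuous_const
    exact ((continuous_apply _).dist (continuous_apply _)).pow 2
  have hcs0 : cs (conf l u0) = 0 := by
    funext f
    have h1 := conf_dist hC (Finset.mem_univ (ey f)) (Finset.mem_univ (ez f)) (hne f) u0
    have h2 : η ^ (2 * l.length + 2 * kk l (ey f) (ez f)) ≠ 0 := pow_ne_zero _ hηpos.ne'
    simp only [hcs, Pi.zero_apply]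
    rw [h1, hu01, hu0F f]
    field_simp
    ring
  obtain ⟨p, hpU, hp⟩ := exists_generic (conf l u0) {p | ‖cs p‖ < ε} (by
    refine (isOpen_lt (hcont.norm) continuous_const).mem_nhds ?_
    show ‖cs (conf l u0)‖ < ε
    rw [hcs0]; simpa using hε)
  have hsol := fun b => hall (hdist (cs p) hpU) b
  choose ub hub hubP using hsol
  have hub1 : ∀ b, (ub b).1 = η := fun b => congrArg Prod.fst (hubP b)
  have hubF : ∀ b (f : E), FF l r (ey f) (ez f) (ub b) = cs p f := fun b f =>
    congrFun (congrArg Prod.snd (hubP b)) f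
  refine ⟨p, hp, fun i => conf l (ub (e i)), ?_, ?_⟩
  · intro i u v huv
    have h0 : dist (conf l (ub (e i)) (ey ⟨s(u, v), huv⟩))
        (conf l (ub (e i)) (ez ⟨s(u, v), huv⟩)) =
        dist (p (ey ⟨s(u, v), huv⟩)) (p (ez ⟨s(u, v), huv⟩)) := by
      rw [← sq_eq_sq₀ dist_nonneg dist_nonneg]
      rw [conf_dist hC (Finset.mem_univ _) (Finset.mem_univ _) (hne _), hubF, hub1]
      have h2 : η ^ (2 * l.length + 2 * kk l (ey ⟨s(u, v), huv⟩) (ez ⟨s(u, v), huv⟩)) ≠ 0 :=
        pow_ne_zero _ hηpos.ne'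
      simp only [hcs]
      rw [sub_add_cancel, mul_div_cancel₀ _ h2]
      ring
    rcases Sym2.eq_iff.mp (hez ⟨s(u, v), huv⟩) with ⟨h1, h2⟩ | ⟨h1, h2⟩
    · rw [h1, h2] at h0
      exact h0
    · rw [h1, h2, dist_comm, dist_comm (p v)] at h0
      exact h0
  · intro i j hij
    by_contra hcon
    push Not at hcon
    have hb : e i ≠ e j := fun h => hij (e.injective h)
    obtain ⟨⟨v, hvS⟩, hv⟩ := Function.ne_iff.mp hb
    have hvLab : v ∈ Lab := Finset.mem_of_mem_erase hvS
    have hvr := hLabmem v hvLab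
    obtain ⟨a, -, k, hk1, hk2, hv1, hv2⟩ := hpairs v (Finset.mem_univ _) hvr.2 hvr.1
    obtain ⟨a', -, k', hk1', hk2', hv1', hv2'⟩ :=
      hpairs vs (Finset.mem_univ _) hvsr.2 hvsr.1
    have hm := crs_mul (conf l (ub (e i))) (conf l (ub (e j))) hcon a v a' vs v0 r
    have s1 := crs_sign hk1 hk2 hr1 hr2 hv1 hv2 _ (pat_sign r S (e i) hvr.1) _ (hub (e i))
      (by rw [hub1]; exact hηpos)
    have s2 := crs_sign hk1 hk2 hr1 hr2 hv1 hv2 _ (pat_sign r S (e j) hvr.1) _ (hub (e j))
      (by rw [hub1]; exact hηpos)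
    have t1 := crs_sign hk1' hk2' hr1 hr2 hv1' hv2' _ (pat_sign r S (e i) hvsr.1) _
      (hub (e i)) (by rw [hub1]; exact hηpos)
    have t2 := crs_sign hk1' hk2' hr1 hr2 hv1' hv2' _ (pat_sign r S (e j) hvsr.1) _
      (hub (e j)) (by rw [hub1]; exact hηpos)
    rw [pat_notMem r S _ hvsr.1 hvsS, one_mul] at t1 t2
    rw [pat_mem r S _ hvr.1 hvS] at s1 s2
    generalize crs (conf l (ub (e i))) a v v0 r = A at *
    generalize crs (conf l (ub (e j))) a v v0 r = A' at *
    generalize crs (conf l (ub (e i))) a' vs v0 r = B at *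
    generalize crs (conf l (ub (e j))) a' vs v0 r = B' at *
    cases h1 : (e i) ⟨v, hvS⟩ <;> cases h2 : (e j) ⟨v, hvS⟩
    · exact hv (h1.trans h2.symm)
    · simp only [h1, h2, if_true, Bool.false_eq_true, if_false] at s1 s2
      have k1 : 0 < A' * B' := mul_pos_of_neg_of_neg (by linarith) t2
      have k2 : A * B < 0 := mul_neg_of_pos_of_neg (by linarith) t1
      linarith
    · simp only [h1, h2, if_true, Bool.false_eq_true, if_false] at s1 s2
      have k1 : 0 < A * B := mul_pos_of_neg_of_neg (by linarith) t1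
      have k2 : A' * B' < 0 := mul_neg_of_pos_of_neg (by linarith) t2
      linarith
    · exact hv (h1.trans h2.symm)

end Pool.Agent.Lib.MP_d08991_co
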